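import Mathlib

/-!
# Project RC, SHARP: the budget of zone I, the numerical inequality

`V(A, y) ≥ N(A, y) + ∑ w_k L_k(A, y)²` on `{A, y ≥ 0, A + (8/5) y ≤ R}`, where all coefficients are nonnegative, `V` is
homogeneous of degree 4, `N` has degree at least 4 and the `L_k` have degree at least 2: by homogeneity it is enough
to check the segment `A + (8/5) y = R`, cut into `n` boxes.
-/

set_option autoImplicit false

namespace Pool.Agent.Helper27.SH

/-- polynomials in `(A, y)`: terms `(i, j, c)` -/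
abbrev P2 := List (ℕ × ℕ × ℚ)

def evQ (A y : ℚ) (L : P2) : ℚ := (L.map fun m => m.2.2 * (A ^ m.1 * y ^ m.2.1)).sum

noncomputable def evR (A y : ℝ) (L : P2) : ℝ := (L.map fun m => (m.2.2 : ℝ) * (A ^ m.1 * y ^ m.2.1)).sum

theorem evR_cast (A y : ℚ) (L : P2) : evR (A : ℝ) (y : ℝ) L = (evQ A y L : ℝ) := by
  induction L with
  | nil => simp [evR, evQ]
  | cons m L ih =>
    simp only [evR, evQ, List.map_cons, List.sum_cons] at ih ⊢
    rw [ih]; push_cast; ring

/-- all coefficients nonnegative, all degrees at least `d` -/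
def okL (d : ℕ) (L : P2) : Bool := L.all fun m => decide (0 ≤ m.2.2) && decide (d ≤ m.1 + m.2.1)

theorem okL_cons {d : ℕ} {m : ℕ × ℕ × ℚ} {L : P2} (h : okL d (m :: L) = true) :
    (0 ≤ m.2.2 ∧ d ≤ m.1 + m.2.1) ∧ okL d L = true := by
  simpa [okL] using h

theorem evR_nonneg {d : ℕ} {L : P2} (h : okL d L = true) {A y : ℝ} (hA : 0 ≤ A) (hy : 0 ≤ y) : 0 ≤ evR A y L := by
  induction L with
  | nil => simp [evR]
  | cons m L ih =>
    obtain ⟨⟨h1, _⟩, h2⟩ := okL_cons h
    have := ih h2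
    have h3 : (0 : ℝ) ≤ (m.2.2 : ℝ) := by exact_mod_cast h1
    simp only [evR, List.map_cons, List.sum_cons] at this ⊢
    positivity

theorem evR_mono {d : ℕ} {L : P2} (h : okL d L = true) {A y A' y' : ℝ} (hA : 0 ≤ A) (hy : 0 ≤ y) (hA' : A ≤ A')
    (hy' : y ≤ y') : evR A y L ≤ evR A' y' L := by
  induction L with
  | nil => simp [evR]
  | cons m L ih =>
    obtain ⟨⟨h1, _⟩, h2⟩ := okL_cons h
    have := ih h2
    have h3 : (0 : ℝ) ≤ (m.2.2 : ℝ) := by exact_mod_cast h1
    simp only [evR, List.map_cons, List.sum_cons] at this ⊢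
    refine add_le_add (mul_le_mul_of_nonneg_left ?_ h3) this
    exact mul_le_mul (pow_le_pow_left₀ hA hA' _) (pow_le_pow_left₀ hy hy' _) (by positivity)
      (pow_nonneg (hA.trans hA') _)

/-- scaling by `τ ≤ 1` -/
theorem evR_scale {d : ℕ} {L : P2} (h : okL d L = true) {A y τ : ℝ} (hA : 0 ≤ A) (hy : 0 ≤ y) (h0 : 0 ≤ τ)
    (h1 : τ ≤ 1) : evR (τ * A) (τ * y) L ≤ τ ^ d * evR A y L := by
  induction L with
  | nil => simp [evR]
  | cons m L ih =>
    obtain ⟨⟨h2, h3⟩, h4⟩ := okL_cons h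
    have := ih h4
    have h5 : (0 : ℝ) ≤ (m.2.2 : ℝ) := by exact_mod_cast h2
    simp only [evR, List.map_cons, List.sum_cons] at this ⊢
    rw [mul_add]
    refine add_le_add ?_ this
    have h6 : τ ^ (m.1 + m.2.1) ≤ τ ^ d := pow_le_pow_of_le_one h0 h1 h3
    have h7 : (τ * A) ^ m.1 * (τ * y) ^ m.2.1 = τ ^ (m.1 + m.2.1) * (A ^ m.1 * y ^ m.2.1) := by
      rw [mul_pow, mul_pow, pow_add]; ring
    rw [h7, mul_left_comm]
    exact mul_le_mul_of_nonneg_right h6 (by positivity)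

/-- homogeneous of degree `d` -/
def homL (d : ℕ) (L : P2) : Bool := L.all fun m => decide (0 ≤ m.2.2) && decide (m.1 + m.2.1 = d)

theorem homL_ok {d : ℕ} {L : P2} (h : homL d L = true) : okL d L = true := by
  induction L with
  | nil => rfl
  | cons m L ih =>
    simp only [homL, okL, List.all_cons, Bool.and_eq_true, decide_eq_true_eq] at h ih ⊢
    exact ⟨⟨h.1.1, h.1.2.ge⟩, ih h.2⟩

theorem evR_hom {d : ℕ} {L : P2} (h : homL d L = true) (A y τ : ℝ) :
    evR (τ * A) (τ * y) L = τ ^ d * evR A y L := by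
  induction L with
  | nil => simp [evR]
  | cons m L ih =>
    have hh : (0 ≤ m.2.2 ∧ m.1 + m.2.1 = d) ∧ homL d L = true := by simpa [homL] using h
    have := ih hh.2
    simp only [evR, List.map_cons, List.sum_cons] at this ⊢
    rw [mul_add, this, ← hh.1.2]
    rw [mul_pow, mul_pow, pow_add]; ring

/-- one box of the segment -/
def chkB (V N : P2) (W : List (ℚ × P2)) (A1 A2 y1 y2 : ℚ) : Bool :=
  decide (evQ A2 y2 N + (W.map fun w => w.1 * evQ A2 y2 w.2 ^ 2).sum ≤ evQ A1 y1 V)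

/-- the whole check: `n` boxes, zone `A + (8/5) y ≤ R` -/
def chk (R : ℚ) (n : ℕ) (V N : P2) (W : List (ℚ × P2)) : Bool :=
  homL 4 V && okL 4 N && (W.all fun w => decide (0 ≤ w.1) && okL 2 w.2) &&
  (List.range n).all fun k =>
    chkB V N W (R - R * (k + 1) / n) (R - R * k / n) (5 / 8 * (R * k / n)) (5 / 8 * (R * (k + 1) / n))

noncomputable def costR (A y : ℝ) (W : List (ℚ × P2)) : ℝ := (W.map fun w => (w.1 : ℝ) * evR A y w.2 ^ 2).sum

theorem costR_mono {W : List (ℚ × P2)} (h : (W.all fun w => decide (0 ≤ w.1) && okL 2 w.2) = true) {A y A' y' : ℝ}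
    (hA : 0 ≤ A) (hy : 0 ≤ y) (hA' : A ≤ A') (hy' : y ≤ y') : costR A y W ≤ costR A' y' W := by
  induction W with
  | nil => simp [costR]
  | cons w W ih =>
    simp only [List.all_cons, Bool.and_eq_true, decide_eq_true_eq] at h ih
    obtain ⟨⟨h1, h2⟩, h3⟩ := h
    have := ih (by simpa using h3)
    have h5 : (0 : ℝ) ≤ (w.1 : ℝ) := by exact_mod_cast h1
    simp only [costR, List.map_cons, List.sum_cons] at this ⊢
    refine add_le_add (mul_le_mul_of_nonneg_left ?_ h5) this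
    exact pow_le_pow_left₀ (evR_nonneg h2 hA hy) (evR_mono h2 hA hy hA' hy') 2

theorem costR_scale {W : List (ℚ × P2)} (h : (W.all fun w => decide (0 ≤ w.1) && okL 2 w.2) = true) {A y τ : ℝ}
    (hA : 0 ≤ A) (hy : 0 ≤ y) (h0 : 0 ≤ τ) (h1 : τ ≤ 1) : costR (τ * A) (τ * y) W ≤ τ ^ 4 * costR A y W := by
  induction W with
  | nil => simp [costR]
  | cons w W ih =>
    simp only [List.all_cons, Bool.and_eq_true, decide_eq_true_eq] at h ih
    obtain ⟨⟨h2, h3⟩, h4⟩ := h
    have := ih (by simpa using h4)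
    have h5 : (0 : ℝ) ≤ (w.1 : ℝ) := by exact_mod_cast h2
    simp only [costR, List.map_cons, List.sum_cons] at this ⊢
    rw [mul_add]
    refine add_le_add ?_ this
    have h6 := evR_scale h3 hA hy h0 h1
    have h7 : 0 ≤ evR (τ * A) (τ * y) w.2 := evR_nonneg h3 (mul_nonneg h0 hA) (mul_nonneg h0 hy)
    have h8 : evR (τ * A) (τ * y) w.2 ^ 2 ≤ (τ ^ 2 * evR A y w.2) ^ 2 := pow_le_pow_left₀ h7 h6 2
    calc (w.1 : ℝ) * evR (τ * A) (τ * y) w.2 ^ 2 ≤ w.1 * (τ ^ 2 * evR A y w.2) ^ 2 :=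
          mul_le_mul_of_nonneg_left h8 h5
      _ = τ ^ 4 * (w.1 * evR A y w.2 ^ 2) := by ring

theorem costR_cast (A y : ℚ) (W : List (ℚ × P2)) :
    costR (A : ℝ) (y : ℝ) W = ((W.map fun w => w.1 * evQ A y w.2 ^ 2).sum : ℚ) := by
  induction W with
  | nil => simp [costR]
  | cons w W ih =>
    simp only [costR, List.map_cons, List.sum_cons] at ih ⊢
    rw [ih, evR_cast]; push_cast; ring

/-- soundness of the check -/
theorem chk_sound {R : ℚ} {n : ℕ} {V N : P2} {W : List (ℚ × P2)} (hR : 0 < R) (hn : 0 < n)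
    (h : chk R n V N W = true) {A y : ℝ} (hA : 0 ≤ A) (hy : 0 ≤ y) (hz : A + 8 / 5 * y ≤ R) :
    evR A y N + costR A y W ≤ evR A y V := by
  unfold chk at h
  simp only [Bool.and_eq_true] at h
  obtain ⟨⟨⟨hV, hN⟩, hW⟩, hB⟩ := h
  have hRr : (0 : ℝ) < (R : ℝ) := by exact_mod_cast hR
  have hnr : (0 : ℝ) < (n : ℝ) := by exact_mod_cast hn
  -- the segment
  have seg : ∀ A y : ℝ, 0 ≤ A → 0 ≤ y → A + 8 / 5 * y = R → evR A y N + costR A y W ≤ evR A y V := by
    intro A y hA hy hz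
    have hyR : 8 / 5 * y ≤ R := by linarith
    set q : ℝ := 8 / 5 * y / R * n with hq
    have hq0 : 0 ≤ q := by positivity
    have hqn : q ≤ n := by
      rw [hq]
      have : 8 / 5 * y / R ≤ 1 := (div_le_one hRr).2 hyR
      nlinarith
    obtain ⟨k, hk, hk1, hk2⟩ : ∃ k : ℕ, k < n ∧ (k : ℝ) ≤ q ∧ q ≤ k + 1 := by
      rcases lt_or_eq_of_le hqn with h1 | h1
      · refine ⟨⌊q⌋₊, (Nat.floor_lt hq0).2 h1, Nat.floor_le hq0, (Nat.lt_floor_add_one q).le⟩
      · refine ⟨n - 1, by omega, ?_, ?_⟩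
        · rw [h1, Nat.cast_sub (by omega)]; simp
        · rw [h1, Nat.cast_sub (by omega)]; simp
    have hyq : 8 / 5 * y = R * q / n := by
      rw [hq]; field_simp
    have e1 : (R : ℝ) * k / n ≤ 8 / 5 * y := by
      rw [hyq]; gcongr
    have e2 : 8 / 5 * y ≤ (R : ℝ) * (k + 1) / n := by
      rw [hyq]; gcongr
    have hb := List.all_eq_true.1 hB k (List.mem_range.2 hk)
    unfold chkB at hb
    rw [decide_eq_true_eq] at hb
    set A1 : ℚ := R - R * (k + 1) / n with hA1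
    set A2 : ℚ := R - R * k / n with hA2
    set y1 : ℚ := 5 / 8 * (R * k / n) with hy1
    set y2 : ℚ := 5 / 8 * (R * (k + 1) / n) with hy2
    have c1 : (A1 : ℝ) ≤ A := by rw [hA1]; push_cast; linarith
    have c2 : A ≤ (A2 : ℝ) := by rw [hA2]; push_cast; linarith
    have c3 : (y1 : ℝ) ≤ y := by rw [hy1]; push_cast; linarith
    have c4 : y ≤ (y2 : ℝ) := by rw [hy2]; push_cast; linarith
    have c5 : (0 : ℝ) ≤ (A1 : ℝ) := by
      rw [hA1]; push_cast
      have : (R : ℝ) * (k + 1) / n ≤ R := by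
        rw [div_le_iff₀ hnr]
        have : ((k : ℝ) + 1) ≤ n := by exact_mod_cast hk
        nlinarith
      linarith
    have c6 : (0 : ℝ) ≤ (y1 : ℝ) := by rw [hy1]; push_cast; positivity
    have m1 := evR_mono hN hA hy c2 c4
    have m2 := costR_mono hW hA hy c2 c4
    have m3 := evR_mono (homL_ok hV) c5 c6 c1 c3
    have m4 : evR (A2 : ℝ) y2 N + costR (A2 : ℝ) y2 W ≤ evR (A1 : ℝ) y1 V := by
      rw [evR_cast, costR_cast, evR_cast]
      exact_mod_cast hb
    linarith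
  -- scaling
  rcases (add_nonneg hA (mul_nonneg (by norm_num : (0:ℝ) ≤ 8 / 5) hy)).eq_or_lt with h0 | h0
  · have hA0 : A = 0 := by nlinarith
    have hy0 : y = 0 := by nlinarith
    have t := seg R 0 hRr.le le_rfl (by ring)
    have a1 := evR_scale hN hRr.le le_rfl (le_refl (0 : ℝ)) zero_le_one
    have a2 := costR_scale hW hRr.le le_rfl (le_refl (0 : ℝ)) zero_le_one
    have a3 := evR_hom hV (R : ℝ) 0 0
    rw [hA0, hy0]
    simp only [zero_mul] at a1 a2 a3
    norm_num at a1 a2 a3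
    linarith
  · set τ : ℝ := (A + 8 / 5 * y) / R with hτ
    have hτ0 : 0 < τ := div_pos h0 hRr
    have hτ1 : τ ≤ 1 := (div_le_one hRr).2 hz
    have hτR : τ * R = A + 8 / 5 * y := by rw [hτ]; field_simp
    have b1 : τ * (A / τ) = A := by field_simp
    have b2 : τ * (y / τ) = y := by field_simp
    have b3 : A / τ + 8 / 5 * (y / τ) = R := by
      have : τ * (A / τ + 8 / 5 * (y / τ)) = τ * R := by
        rw [hτR]; linear_combination b1 + 8 / 5 * b2
      exact mul_left_cancel₀ hτ0.ne' this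
    have t := seg (A / τ) (y / τ) (by positivity) (by positivity) b3
    have a1 := evR_scale hN (A := A / τ) (y := y / τ) (by positivity) (by positivity) hτ0.le hτ1
    have a2 := costR_scale hW (A := A / τ) (y := y / τ) (by positivity) (by positivity) hτ0.le hτ1
    have a3 := evR_hom hV (A / τ) (y / τ) τ
    rw [b1, b2] at a1 a2 a3
    have hp : 0 ≤ τ ^ 4 := by positivity
    have t2 := mul_le_mul_of_nonneg_left t hp
    rw [a3]
    linarith

end Pool.Agent.Helper27.SH
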