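import Pool.Agent.Helper27.SH.Fun
import Pool.Agent.Helper27.SH.Num

/-!
# Project RC, SHARP: the budget of zone I, the final inequality (abstract)

`GD`: rows and norm errors of the linear part, `VD`: polynomial and error of the value, `MT`: the metric of the quadratic
part (units `1/1000`). One kernel check `chkAll` gives `0 ≤ value + linear + quadratic` on the zone.
-/

set_option autoImplicit false

open scoped BigOperators

namespace Pool.Agent.Helper27.SH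

open Pool.Agent.Helper40.NR

/-- gradient data: rows of `ρ`, `re β`, `im β` and the norm errors -/
structure GD where
  z : RW
  p : RW
  r : RW
  ez : N2
  e2 : N2
  e3 : N2

/-- value data -/
structure VD where
  f : FP
  e : N2

/-- the denominators do not vanish -/
def GD.ok (g : GD) : Bool := okR g.z && okR g.p && okR g.r

/-- sum of two gradient data -/
def GD.add (g h : GD) : GD := ⟨addR g.z h.z, addR g.p h.p, addR g.r h.r, g.ez ++ h.ez, g.e2 ++ h.e2, g.e3 ++ h.e3⟩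

/-- sum of two value data -/
def VD.add (v w : VD) : VD := ⟨addF v.f w.f, v.e ++ w.e⟩

/-- the rows `g` describe the functional value `Lin` up to the norm errors -/
def GOK (A : ℝ) (B : ℂ) (g : GD) (s p r : ℤ → ℂ) (Nz Np Nr Lin : ℝ) : Prop :=
  |Lin - (rsum A B g.z s + rsum A B g.p p + rsum A B g.r r)| ≤
    evN A ‖B‖ g.ez * Real.sqrt Nz + evN A ‖B‖ g.e2 * Real.sqrt Np + evN A ‖B‖ g.e3 * Real.sqrt Nr

def VOK (A : ℝ) (B : ℂ) (v : VD) (E : ℝ) : Prop := |E - (evF A B v.f).re| ≤ evN A ‖B‖ v.e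

theorem GOK.add {A : ℝ} {B : ℂ} {g h : GD} {s p r : ℤ → ℂ} {Nz Np Nr L L' : ℝ} (hg : g.ok = true) (hh : h.ok = true)
    (h1 : GOK A B g s p r Nz Np Nr L) (h2 : GOK A B h s p r Nz Np Nr L') :
    GOK A B (g.add h) s p r Nz Np Nr (L + L') := by
  simp only [GD.ok, Bool.and_eq_true] at hg hh
  unfold GOK GD.add at *
  simp only
  rw [rsum_add A B s _ _ hg.1.1 hh.1.1, rsum_add A B p _ _ hg.1.2 hh.1.2, rsum_add A B r _ _ hg.2 hh.2,
    evN_append, evN_append, evN_append]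
  rw [abs_le] at *
  constructor <;> nlinarith [h1.1, h1.2, h2.1, h2.2]

theorem VOK.add {A : ℝ} {B : ℂ} {v w : VD} {E E' : ℝ} (hv : v.f.1 ≠ 0) (hw : w.f.1 ≠ 0) (h1 : VOK A B v E)
    (h2 : VOK A B w E') : VOK A B (v.add w) (E + E') := by
  unfold VOK VD.add at *
  simp only
  rw [evF_add A B hv hw, Complex.add_re, evN_append]
  rw [abs_le] at *
  constructor <;> linarith [h1.1, h1.2, h2.1, h2.2]

/-- gradient data with errors of their own for the harmonics `2` -/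
structure GE where
  z : RW
  p : RW
  r : RW
  ez : N2
  e2 : N2
  h2 : N2
  e3 : N2
  h3 : N2

def GE.ok (g : GE) : Bool := okR g.z && okR g.p && okR g.r

def GE.add (g h : GE) : GE := ⟨addR g.z h.z, addR g.p h.p, addR g.r h.r, g.ez ++ h.ez, g.e2 ++ h.e2, g.h2 ++ h.h2,
  g.e3 ++ h.e3, g.h3 ++ h.h3⟩

def GEK (A : ℝ) (B : ℂ) (g : GE) (s p r : ℤ → ℂ) (Nz Np Nr Lin : ℝ) : Prop :=
  |Lin - (rsum A B g.z s + rsum A B g.p p + rsum A B g.r r)| ≤
    evN A ‖B‖ g.ez * Real.sqrt Nz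
    + (evN A ‖B‖ g.e2 * Real.sqrt (Np - 2 * ‖p 2‖ ^ 2) + evN A ‖B‖ g.h2 * ‖p 2‖)
    + (evN A ‖B‖ g.e3 * Real.sqrt (Nr - 2 * ‖r 2‖ ^ 2) + evN A ‖B‖ g.h3 * ‖r 2‖)

theorem GEK.add {A : ℝ} {B : ℂ} {g h : GE} {s p r : ℤ → ℂ} {Nz Np Nr L L' : ℝ} (hg : g.ok = true) (hh : h.ok = true)
    (h1 : GEK A B g s p r Nz Np Nr L) (h2 : GEK A B h s p r Nz Np Nr L') :
    GEK A B (g.add h) s p r Nz Np Nr (L + L') := by
  simp only [GE.ok, Bool.and_eq_true] at hg hh
  unfold GEK GE.add at *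
  simp only
  rw [rsum_add A B s _ _ hg.1.1 hh.1.1, rsum_add A B p _ _ hg.1.2 hh.1.2, rsum_add A B r _ _ hg.2 hh.2,
    evN_append, evN_append, evN_append, evN_append, evN_append]
  rw [abs_le] at *
  constructor <;> nlinarith [h1.1, h1.2, h2.1, h2.2]

theorem sqrt_split {N a : ℝ} (ha : 0 ≤ a) (h : 2 * a ^ 2 ≤ N) :
    Real.sqrt N ≤ Real.sqrt (N - 2 * a ^ 2) + 17 / 12 * a := by
  rw [Real.sqrt_le_iff]
  have h0 : 0 ≤ N - 2 * a ^ 2 := by linarith
  have h1 := Real.sqrt_nonneg (N - 2 * a ^ 2)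
  have h2 := Real.sq_sqrt h0
  refine ⟨by positivity, ?_⟩
  nlinarith [mul_nonneg h1 ha]

/-- one error per function gives two -/
def GD.toE (g : GD) : GE := ⟨g.z, g.p, g.r, g.ez, g.e2, sc17 g.e2, g.e3, sc17 g.e3⟩

theorem GOK.toE {A : ℝ} (hA : 0 ≤ A) {B : ℂ} {g : GD} {s p r : ℤ → ℂ} {Nz Np Nr L : ℝ} (hp : 2 * ‖p 2‖ ^ 2 ≤ Np)
    (hr : 2 * ‖r 2‖ ^ 2 ≤ Nr) (h : GOK A B g s p r Nz Np Nr L) : GEK A B g.toE s p r Nz Np Nr L := by
  have hy := norm_nonneg B
  have key : ∀ (e : N2) (N : ℝ) (a : ℝ), 0 ≤ a → 2 * a ^ 2 ≤ N →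
      evN A ‖B‖ e * Real.sqrt N ≤ evN A ‖B‖ e * Real.sqrt (N - 2 * a ^ 2) + evN A ‖B‖ (sc17 e) * a := by
    intro e N a ha hN
    have h1 := evN_nonneg hA hy e
    have h2 := mul_le_mul_of_nonneg_left (sqrt_split ha hN) h1
    have h3 := mul_le_mul_of_nonneg_right (sc17_le hA hy e) ha
    linarith
  have k2 := key g.e2 Np ‖p 2‖ (norm_nonneg _) hp
  have k3 := key g.e3 Nr ‖r 2‖ (norm_nonneg _) hr
  unfold GEK GD.toE GOK at *
  simp only
  linarith

/-- the metric: a weight for every mode of `ρ`, `re β`, `im β` -/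
structure MT where
  z : WT
  p : WT
  r : WT

/-- the metric -/
noncomputable def MetS (M : MT) (s p r : ℤ → ℂ) (Nz Np Nr : ℝ) : ℝ :=
  MetF false M.z s Nz + MetF true M.p p Np + MetF true M.r r Nr

/-- the list of squares -/
def costA (M : MT) (g : GE) : List (ℕ × N2) :=
  costF false M.z g.ez [] g.z ++ (costF true M.p g.e2 g.h2 (foldR g.p) ++ costF true M.r g.e3 g.h3 (foldR g.r))

/-- `-V` as a polynomial (`V`: even powers of `y`) -/
def negV (V : N2) : FP := (1000000000, V.map fun m => ((m.1, m.2.1 / 2, m.2.1 / 2), (-(m.2.2 : ℤ), 0, 0, 0)))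

def evenV (V : N2) : Bool := V.all fun m => decide (m.2.1 % 2 = 0)

theorem evF_negV (A : ℝ) (B : ℂ) (V : N2) (h : evenV V = true) : evF A B (negV V) = ((-evN A ‖B‖ V : ℝ) : ℂ) := by
  unfold evF negV
  simp only
  have key : evP A B (V.map fun m => ((m.1, m.2.1 / 2, m.2.1 / 2), (-(m.2.2 : ℤ), 0, 0, 0))) =
      1000000000 * ((-evN A ‖B‖ V : ℝ) : ℂ) := by
    induction V with
    | nil => simp
    | cons m V ih =>
      have h' : m.2.1 % 2 = 0 ∧ evenV V = true := by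
        simpa [evenV] using h
      rw [List.map_cons, evP_cons, ih h'.2, evN_cons]
      have e1 : evM A B (m.1, m.2.1 / 2, m.2.1 / 2) = ((A ^ m.1 * ‖B‖ ^ m.2.1 : ℝ) : ℂ) := by
        unfold evM
        simp only
        have e2 : B ^ (m.2.1 / 2) * (starRingEnd ℂ) B ^ (m.2.1 / 2) = ((‖B‖ ^ m.2.1 : ℝ) : ℂ) := by
          rw [← mul_pow, Complex.mul_conj, Complex.normSq_eq_norm_sq]
          push_cast
          rw [← pow_mul]
          congr 1
          omega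
        rw [mul_assoc, e2]
        push_cast
        ring
      rw [e1]
      have e3 : ev4 (-(m.2.2 : ℤ), 0, 0, 0) = -(m.2.2 : ℂ) := by
        unfold ev4
        push_cast
        ring
      rw [e3]
      push_cast
      ring
  rw [key]
  push_cast
  field_simp

/-- the whole check -/
def chkAll (Rn Rd n K : ℕ) (M : MT) (g : GE) (v : VD) (V : N2) : Bool :=
  M.z.ok false g.z && M.p.ok true (foldR g.p) && M.r.ok true (foldR g.r) && g.ok && decide (v.f.1 ≠ 0) && evenV V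
  && chkN Rn Rd n K V (absF (addF (reF v.f) (negV V)) ++ v.e) (costA M g)

/-- the value from below -/
theorem val_ge {A : ℝ} (hA : 0 ≤ A) {B : ℂ} {v : VD} {V : N2} {E : ℝ} (hv : v.f.1 ≠ 0) (hV : evenV V = true)
    (h : VOK A B v E) : evN A ‖B‖ V - evN A ‖B‖ (absF (addF (reF v.f) (negV V)) ++ v.e) ≤ E := by
  have hn : (negV V).1 ≠ 0 := by simp [negV]
  have h1 := absF_le hA B (f := addF (reF v.f) (negV V)) (addF_ne (reF_ne hv) hn)
  rw [evF_add A B (reF_ne hv) hn, evF_negV A B V hV, evF_re A B hv] at h1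
  have h2 := Complex.abs_re_le_norm ((((evF A B v.f).re : ℝ) : ℂ) + ((-evN A ‖B‖ V : ℝ) : ℂ))
  rw [Complex.add_re, Complex.ofReal_re, Complex.ofReal_re] at h2
  have h3 := (abs_le.1 (h2.trans h1)).1
  have h4 := (abs_le.1 h).1
  rw [evN_append]
  linarith

/-- facts on the arrays of the rest -/
structure AR (A : ℝ) (B : ℂ) (s p r : ℤ → ℂ) (Nz Np Nr : ℝ) : Prop where
  hp : ∀ n, p (-n) = (starRingEnd ℂ) (p n)
  hr : ∀ n, r (-n) = (starRingEnd ℂ) (r n)
  nz : ∀ S : Finset ℤ, ∑ n ∈ S, ‖s n‖ ^ 2 ≤ Nz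
  np : ∀ S : Finset ℤ, ∑ n ∈ S, ‖p n‖ ^ 2 ≤ Np
  nr : ∀ S : Finset ℤ, ∑ n ∈ S, ‖r n‖ ^ 2 ≤ Nr
  h3 : ‖s (-3)‖ ≤ 11 / 5 * (A * ‖B‖) * Real.sqrt Nz
  h5 : ‖s (-5)‖ ≤ 11 / 5 * (A * ‖B‖) * Real.sqrt Nz

/-- nonnegative modes of a hermitian array -/
theorem herm_fin {x : ℤ → ℂ} (hx : ∀ n, x (-n) = (starRingEnd ℂ) (x n)) {N : ℝ}
    (hN : ∀ S : Finset ℤ, ∑ n ∈ S, ‖x n‖ ^ 2 ≤ N) (S : Finset ℤ) (hS : ∀ n ∈ S, 0 ≤ n) :
    ∑ n ∈ S, (mu true n : ℝ) * ‖x n‖ ^ 2 ≤ N := by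
  classical
  set T : Finset ℤ := (S.erase 0).image fun n => -n with hT
  have hd : Disjoint S T := by
    rw [Finset.disjoint_left]
    intro a ha hb
    rw [hT, Finset.mem_image] at hb
    obtain ⟨b, hb, rfl⟩ := hb
    rw [Finset.mem_erase] at hb
    have h1 := hS b hb.2
    have h2 := hS _ ha
    exact hb.1 (by omega)
  have h1 := hN (S ∪ T)
  rw [Finset.sum_union hd] at h1
  have h2 : ∑ n ∈ T, ‖x n‖ ^ 2 = ∑ n ∈ S.erase 0, ‖x n‖ ^ 2 := by
    rw [hT, Finset.sum_image (fun a _ b _ h => neg_injective h)]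
    refine Finset.sum_congr rfl fun n _ => ?_
    rw [hx, Complex.norm_conj]
  have h3 : ∑ n ∈ S, (mu true n : ℝ) * ‖x n‖ ^ 2 = ∑ n ∈ S, ‖x n‖ ^ 2 + ∑ n ∈ S.erase 0, ‖x n‖ ^ 2 := by
    have e : ∀ n ∈ S, (mu true n : ℝ) * ‖x n‖ ^ 2 = ‖x n‖ ^ 2 + (if n = 0 then 0 else ‖x n‖ ^ 2) := by
      intro n _
      by_cases h : n = 0
      · simp [mu, h]
      · simp [mu, h]
        ring
    rw [Finset.sum_congr rfl e, Finset.sum_add_distrib]
    congr 1
    by_cases h0 : (0 : ℤ) ∈ S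
    · rw [← Finset.add_sum_erase S _ h0, if_pos rfl, zero_add]
      refine Finset.sum_congr rfl fun n hn => ?_
      rw [if_neg (Finset.mem_erase.1 hn).1]
    · rw [Finset.erase_eq_of_notMem h0]
      refine Finset.sum_congr rfl fun n hn => ?_
      have hn0 : n ≠ 0 := fun h => h0 (by rw [← h]; exact hn)
      rw [if_neg hn0]
  rw [h3]
  linarith

/-- THE BUDGET -/
theorem bud_all {Rn Rd n K : ℕ} {M : MT} {g : GE} {v : VD} {V : N2} (hRn : 0 < Rn) (hRd : 0 < Rd) (hn : 0 < n)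
    (h : chkAll Rn Rd n K M g v V = true) {A : ℝ} {B : ℂ} (hA : 0 ≤ A) (hz : A + 8 / 5 * ‖B‖ ≤ (Rn : ℝ) / Rd)
    {s p r : ℤ → ℂ} {Nz Np Nr E Lin Q : ℝ} (ar : AR A B s p r Nz Np Nr)
    (hE : VOK A B v E) (hL : GEK A B g s p r Nz Np Nr Lin) (hQ : MetS M s p r Nz Np Nr ≤ Q) : 0 ≤ E + Lin + Q := by
  unfold chkAll at h
  simp only [Bool.and_eq_true, decide_eq_true_eq] at h
  obtain ⟨⟨⟨⟨⟨⟨hz', hp'⟩, hr'⟩, hg⟩, hv⟩, hV⟩, hc⟩ := h
  simp only [GE.ok, Bool.and_eq_true] at hg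
  have c0 := chkN_sound hRn hRd hn hc hA (norm_nonneg B) hz
  unfold costA at c0
  rw [costN_append, costN_append] at c0
  have c1 := val_ge hA hv hV hE
  have z1 := fbud false hA B s (e := g.ez) (h := []) (N := Nz) hz' (fun S _ => by simpa [mu] using ar.nz S)
  have z2 := fbud true hA B p (e := g.e2) (h := g.h2) (N := Np) hp' (fun S hS => herm_fin ar.hp ar.np S (hS rfl))
  have z3 := fbud true hA B r (e := g.e3) (h := g.h3) (N := Nr) hr' (fun S hS => herm_fin ar.hr ar.nr S (hS rfl))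
  rw [rsum_fold A B ar.hp _ hg.1.2] at z2
  rw [rsum_fold A B ar.hr _ hg.2] at z3
  have c2 := (abs_le.1 hL).1
  unfold MetS at hQ
  unfold errS at z1 z2 z3
  rw [if_neg (by decide)] at z1
  rw [if_pos rfl] at z2 z3
  linarith

/-! ### conversion of error polynomials -/

/-- helper40's error polynomials (unit `10⁻⁶`) -/
def ofE (e : EE) : N2 := e.map fun x => (x.1.1, x.1.2, x.2 * 1000)

theorem ofE_eq (A y : ℝ) : ∀ e : EE, evN A y (ofE e) = evE A y e
  | [] => rfl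
  | x :: e => by
    have e0 : ofE (x :: e) = (x.1.1, x.1.2, x.2 * 1000) :: ofE e := rfl
    rw [e0, evN_cons, evE_cons, ofE_eq A y e]
    push_cast
    ring

/-- rational error polynomials -/
def ofP (L : P2) : N2 := L.map fun m => (m.1, m.2.1, m.2.2.num.toNat * 1000000000 / m.2.2.den + 1)

theorem ofP_le {A y : ℝ} (hA : 0 ≤ A) (hy : 0 ≤ y) : ∀ L : P2, evR A y L ≤ evN A y (ofP L)
  | [] => by simp [evR, ofP]
  | m :: L => by
    have ih := ofP_le hA hy L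
    have e0 : ofP (m :: L) = (m.1, m.2.1, m.2.2.num.toNat * 1000000000 / m.2.2.den + 1) :: ofP L := rfl
    have e1 : evR A y (m :: L) = (m.2.2 : ℝ) * (A ^ m.1 * y ^ m.2.1) + evR A y L := by simp [evR]
    rw [e0, e1, evN_cons]
    refine add_le_add (mul_le_mul_of_nonneg_right ?_ (by positivity)) ih
    rw [le_div_iff₀ (by norm_num)]
    have hd : (0 : ℝ) < (m.2.2.den : ℝ) := by exact_mod_cast m.2.2.den_pos
    have h1 : (m.2.2 : ℝ) = (m.2.2.num : ℝ) / (m.2.2.den : ℝ) := by exact_mod_cast (Rat.num_div_den m.2.2).symm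
    have h2 : (m.2.2.num : ℝ) ≤ ((m.2.2.num.toNat : ℕ) : ℝ) := by
      have := Int.self_le_toNat m.2.2.num
      exact_mod_cast this
    have h3 : m.2.2.num.toNat * 1000000000 < (m.2.2.num.toNat * 1000000000 / m.2.2.den + 1) * m.2.2.den := by
      calc m.2.2.num.toNat * 1000000000 < m.2.2.num.toNat * 1000000000 / m.2.2.den * m.2.2.den + m.2.2.den :=
            Nat.lt_div_mul_add m.2.2.den_pos
        _ = (m.2.2.num.toNat * 1000000000 / m.2.2.den + 1) * m.2.2.den := by ring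
    have h4 : (m.2.2.num.toNat : ℝ) * 1000000000 ≤
        ((m.2.2.num.toNat * 1000000000 / m.2.2.den + 1 : ℕ) : ℝ) * m.2.2.den := by
      exact_mod_cast h3.le
    rw [h1, div_mul_eq_mul_div, div_le_iff₀ hd]
    linarith

end Pool.Agent.Helper27.SH
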