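import Pool.Agent.Helper27.SH.Pars
import Pool.Agent.Helper43.SH.ArI
import Pool.Agent.Helper40.NR.Gok
import Pool.Agent.Helper7.SH.GOKF

/-!
# SHARP (MP_b21509_co), zone I: the linear part at the rest of the sections, and the assembly of the budget
-/

set_option autoImplicit false

open MeasureTheory Set Filter Metric
open scoped BigOperators

namespace Pool.Agent.Helper27.SH

open Helper49.LT hiding sg s3
open Helper49.RC Helper49.Sharp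
open Helper56.RC (fc)
open Helper56.SH (StZ1)
open Helper87.RC (BM fc_anti fc_perpi)
open Helper95.RC (BF)
open Helper95.SH (Dat SN dat_SN)
open Pool.Agent.Helper20.RC (wR wR_per)
open Pool.Agent.Helper33.SH
open Pool.Agent.Helper33.GL (TailL RB)
open Pool.Agent.Helper33.GM (OKc)
open Pool.Agent.Helper43.SH
open Pool.Agent.Helper40.NR hiding PZ
open Pool.Agent.Helper7.GK

section

variable {A : ℝ} {B : ℂ}

theorem rb_R (hZ : |A| + 2 * ‖B‖ ≤ 1 / 4) {b z : ℝ → ℂ} (d : Dat b z) (N : ℕ) :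
    RB (beR A B N b) (rhR A B N z) := by
  have d1 := dat_SN d N
  have d2 := dat_PI (A := A) (B := B) hZ
  refine ⟨beR_bm hZ N b, rhR_bm hZ N z, fun t => ?_, fun t => ?_⟩
  · show (wR (-2 * (A : ℂ) * (starRingEnd ℂ) B) 0 0 (t + Real.pi) : ℂ) * (SN N b (t + Real.pi) - b0I A B (t + Real.pi)) =
      (wR (-2 * (A : ℂ) * (starRingEnd ℂ) B) 0 0 t : ℂ) * (SN N b t - b0I A B t)
    rw [wR_per, d1.pb, d2.pb]
  · show (wR (-2 * (A : ℂ) * (starRingEnd ℂ) B) 0 0 (t + Real.pi) : ℂ) * (SN N z (t + Real.pi) - z0I A B (t + Real.pi)) =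
      -((wR (-2 * (A : ℂ) * (starRingEnd ℂ) B) 0 0 t : ℂ) * (SN N z t - z0I A B t))
    rw [wR_per, d1.pz, d2.pz]
    ring

theorem par_x (hZ : |A| + 2 * ‖B‖ ≤ 1 / 4) {b z : ℝ → ℂ} (d : Dat b z) (N : ℕ) (l : ℤ) (hl : ¬ Even l) :
    xR A B N b l = 0 := by
  have h := rb_R hZ d N
  obtain ⟨C, hC⟩ := h.bb
  rw [← fc_beR_re hZ d.hb N]
  refine fc_perpi (re_bm hC) (fun t => ?_) (Int.not_even_iff_odd.1 hl)
  rw [h.pb]

theorem par_y (hZ : |A| + 2 * ‖B‖ ≤ 1 / 4) {b z : ℝ → ℂ} (d : Dat b z) (N : ℕ) (l : ℤ) (hl : ¬ Even l) :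
    yR A B N b l = 0 := by
  have h := rb_R hZ d N
  obtain ⟨C, hC⟩ := h.bb
  rw [← fc_beR_im hZ d.hb N]
  refine fc_perpi (im_bm hC) (fun t => ?_) (Int.not_even_iff_odd.1 hl)
  rw [h.pb]

theorem par_t (hZ : |A| + 2 * ‖B‖ ≤ 1 / 4) {b z : ℝ → ℂ} (d : Dat b z) (N : ℕ) (l : ℤ) (hl : Even l) :
    tR A B N z l = 0 := by
  have h := rb_R hZ d N
  obtain ⟨C, hC⟩ := h.br
  rw [← fc_rhR hZ N]
  exact fc_anti hC h.pr hl

/-- the norms of the rest -/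
noncomputable abbrev NZ (A : ℝ) (B : ℂ) (N : ℕ) (z : ℝ → ℂ) : ℝ := mean fun t => ‖rhR A B N z t‖ ^ 2
noncomputable abbrev NX (A : ℝ) (B : ℂ) (N : ℕ) (b : ℝ → ℂ) : ℝ := mean fun t => (beR A B N b t).re ^ 2
noncomputable abbrev NY (A : ℝ) (B : ℂ) (N : ℕ) (b : ℝ → ℂ) : ℝ := mean fun t => (beR A B N b t).im ^ 2

theorem ar_R (hZ : |A| + 2 * ‖B‖ ≤ 1 / 4) (hA : 0 ≤ A) {b z : ℝ → ℂ} (d : Dat b z) (h3 : fc z (-3) = (A : ℂ))
    (h5 : fc z (-5) = B) {N : ℕ} (hN : 10 ≤ N) :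
    AR A B (tR A B N z) (xR A B N b) (yR A B N b) (NZ A B N z) (NX A B N b) (NY A B N b) := by
  refine ⟨xR_neg hZ d.hb N, yR_neg hZ d.hb N, sum_tR hZ N z, sum_xR hZ d.hb N, sum_yR hZ d.hb N, ?_, ?_⟩
  · have := tR3_le hZ h3 h5 hN
    rwa [abs_of_nonneg hA] at this
  · have := tR5_le hZ h3 h5 hN
    rwa [abs_of_nonneg hA] at this

/-- Bessel on a shifted window -/
theorem win_sum {x : ℤ → ℂ} {Nx : ℝ} (h : ∀ S : Finset ℤ, ∑ n ∈ S, ‖x n‖ ^ 2 ≤ Nx) (S : Finset ℤ) :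
    ∑ m ∈ S, ‖x (m - 1)‖ ^ 2 ≤ Nx := by
  classical
  have := h (S.image fun m => m - 1)
  rwa [Finset.sum_image (fun a _ b _ h => sub_left_injective h)] at this

/-- `2 |x 2|² ≤ N` for hermitian arrays -/
theorem two_le {x : ℤ → ℂ} (hx : ∀ n, x (-n) = (starRingEnd ℂ) (x n)) {Nx : ℝ}
    (h : ∀ S : Finset ℤ, ∑ n ∈ S, ‖x n‖ ^ 2 ≤ Nx) : 2 * ‖x 2‖ ^ 2 ≤ Nx := by
  have h1 := h {2, -2}
  rw [Finset.sum_pair (by norm_num), hx 2, Complex.norm_conj] at h1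
  linarith

/-- the rows of the budget -/
def gI (gT : GE) : GE := ((gLOC.toE.add gNS.toE).add gT).good

/-- the numbers of zone I -/
theorem okc_zcI (A : ℝ) (B : ℂ) : OKc (zcI A B) A B := ⟨rfl, rfl, rfl⟩

theorem gek_I {gT : GE} (hok : (gLOC.toE.ok && gNS.toE.ok && (gLOC.toE.add gNS.toE).ok && gT.ok
      && ((gLOC.toE.add gNS.toE).add gT).ok) = true) (hA : 0 ≤ A)
    (hz : A + 8 / 5 * ‖B‖ ≤ 1 / 12) {b z : ℝ → ℂ} (d : Dat b z) (h3 : fc z (-3) = (A : ℂ)) (h5 : fc z (-5) = B)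
    {N : ℕ} (hN : 42 ≤ N)
    (hT : GEK A B gT (tR A B N z) (xR A B N b) (yR A B N b) (NZ A B N z) (NX A B N b) (NY A B N b)
      (TailL (PZ A B) (b0I A B) (z0I A B) (beR A B N b) (rhR A B N z))) :
    GEK A B (gI gT) (tR A B N z) (xR A B N b) (yR A B N b) (NZ A B N z) (NX A B N b) (NY A B N b) (GI A B N b z) := by
  simp only [Bool.and_eq_true] at hok
  obtain ⟨⟨⟨⟨k1, k2⟩, k3⟩, k4⟩, k5⟩ := hok
  have hB := norm_nonneg B
  have hZ : |A| + 2 * ‖B‖ ≤ 1 / 4 := by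
    rw [abs_of_nonneg hA]
    linarith
  have ar := ar_R hZ hA d h3 h5 (N := N) (by omega)
  have a2 := two_le ar.hp ar.np
  have a3 := two_le ar.hr ar.nr
  have e1 := gok_loc (c := zcI A B) (okc_zcI A B) (show (100 : ℝ) ≤ (zcI A B).rho from le_rfl) (lam_le_m hZ) hA
    (by linarith) (rb_R hZ d N)
  rw [fc_beR_re hZ d.hb N, fc_beR_im hZ d.hb N, fc_rhR hZ N] at e1
  have e2 := gok_NS (zcI A B) hA (by linarith) (B := B) (by linarith) hN (xR A B N b) (yR A B N b) (tR A B N z)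
    (par_x hZ d N) (par_y hZ d N) (par_t hZ d N) (win_sum ar.nz _) (win_sum ar.np _) (win_sum ar.nr _)
  have f1 := e1.toE hA a2 a3
  have f2 := e2.toE hA a2 a3
  have f3 := (f1.add k1 k2 f2).add k3 k4 hT
  have f4 := f3.good hA k5 ar.h3 ar.h5
  have eL : LinP (PI (zcI A B) A B) (b0I A B) (z0I A B) (beR A B N b) (rhR A B N z)
      - TailL (PI (zcI A B) A B) (b0I A B) (z0I A B) (beR A B N b) (rhR A B N z)
      + 2 * Pool.Agent.Helper61.RC.NSB (dI A B) A Real.pi (Finset.Icc (-((N + 3 : ℕ) : ℤ)) ((N + 3 : ℕ) : ℤ))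
          (B1 (zcI A B) A B) (B2 (zcI A B) A B)
          (R1 (xR A B N b) (yR A B N b) (tR A B N z)) (R2 (xR A B N b) (yR A B N b) (tR A B N z))
      + TailL (PZ A B) (b0I A B) (z0I A B) (beR A B N b) (rhR A B N z) = GI A B N b z := by
    unfold GI PZ
    ring
  rw [eL] at f4
  exact f4

end

/-- **ZONE I FROM ITS PARTS** (`gT`: the rows `l ≥ 12` of the linear part, `v`: the value, `M`: the metric) -/
theorem stZ1_parts
    (HL : Helper50.SH.P4F (21 / 25) (4 / 5) 1 (3 / 2) (-(18 / 1000)) (36 / 1000) (33903 / 1048576) (1 / 2))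
    {gT : GE} {v : VD} {M : MT} {V : N2} {n K : ℕ} (hn : 0 < n)
    (hok : (gLOC.toE.ok && gNS.toE.ok && (gLOC.toE.add gNS.toE).ok && gT.ok
      && ((gLOC.toE.add gNS.toE).add gT).ok) = true)
    (hc : chkAll 1 12 n K M (gI gT) v V = true)
    (HT : ∀ (A : ℝ) (B : ℂ), 0 ≤ A → A + 8 / 5 * ‖B‖ ≤ 1 / 12 → ∀ b z : ℝ → ℂ, Dat b z → fc z (-3) = (A : ℂ) →
      fc z (-5) = B → ∀ N, 48 ≤ N → GEK A B gT (tR A B N z) (xR A B N b) (yR A B N b) (NZ A B N z) (NX A B N b)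
        (NY A B N b) (TailL (PZ A B) (b0I A B) (z0I A B) (beR A B N b) (rhR A B N z)))
    (HV : ∀ (A : ℝ) (B : ℂ), 0 ≤ A → A + 8 / 5 * ‖B‖ ≤ 1 / 12 → VOK A B v (VI A B))
    (HQ : ∀ (A : ℝ) (B : ℂ), 0 ≤ A → A + 8 / 5 * ‖B‖ ≤ 1 / 12 → ∀ b z : ℝ → ℂ, Dat b z → fc z (-3) = (A : ℂ) →
      fc z (-5) = B → ∀ N, 48 ≤ N → MetS M (tR A B N z) (xR A B N b) (yR A B N b) (NZ A B N z) (NX A B N b)
        (NY A B N b) ≤ QI A B N b z) : StZ1 (1 / 12) := by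
  refine stZ1_VGQ (by norm_num) HL 48 fun A B hA hz b z d h3 h5 N hN => ?_
  have hB := norm_nonneg B
  have hZ : |A| + 2 * ‖B‖ ≤ 1 / 4 := by
    rw [abs_of_nonneg hA]
    linarith
  have ar := ar_R hZ hA d h3 h5 (N := N) (by omega)
  exact bud_all (by norm_num) (by norm_num) hn hc hA (by push_cast; exact hz) ar (HV A B hA hz)
    (gek_I hok hA hz d h3 h5 (by omega) (HT A B hA hz b z d h3 h5 N hN)) (HQ A B hA hz b z d h3 h5 N hN)

end Pool.Agent.Helper27.SH
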