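import Mathlib

/-!
# Project RC, SHARP: the budget of zone I, abstract part

A linear functional with finitely many explicit rows plus a norm error, against a diagonal metric.
-/

set_option autoImplicit false

open scoped BigOperators

namespace Pool.Agent.Helper27.SH

/-- one row against its weight -/
theorem row_one (g x : ℂ) {d : ℝ} (hd : 0 < d) : -(‖g‖ ^ 2 / (4 * d)) ≤ d * ‖x‖ ^ 2 + (g * x).re := by
  have h1 : -(‖g‖ * ‖x‖) ≤ (g * x).re := by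
    have := Complex.abs_re_le_norm (g * x)
    rw [norm_mul] at this
    exact (abs_le.1 this).1
  have h2 : 0 ≤ (2 * d * ‖x‖ - ‖g‖) ^ 2 := sq_nonneg _
  have h3 : d * ‖x‖ ^ 2 - ‖g‖ * ‖x‖ + ‖g‖ ^ 2 / (4 * d) = (2 * d * ‖x‖ - ‖g‖) ^ 2 / (4 * d) := by
    field_simp
    ring
  have h4 : 0 ≤ (2 * d * ‖x‖ - ‖g‖) ^ 2 / (4 * d) := by positivity
  linarith

/-- the norm error against a part of the weight -/
theorem err_one (e N : ℝ) {θ : ℝ} (hθ : 0 < θ) (hN : 0 ≤ N) : -(e ^ 2 / (4 * θ)) ≤ θ * N - e * Real.sqrt N := by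
  obtain ⟨r, hr, rfl⟩ : ∃ r : ℝ, 0 ≤ r ∧ N = r ^ 2 := ⟨Real.sqrt N, Real.sqrt_nonneg _, (Real.sq_sqrt hN).symm⟩
  rw [Real.sqrt_sq hr]
  have h3 : θ * r ^ 2 - e * r + e ^ 2 / (4 * θ) = (2 * θ * r - e) ^ 2 / (4 * θ) := by
    field_simp
    ring
  have h4 : 0 ≤ (2 * θ * r - e) ^ 2 / (4 * θ) := by positivity
  linarith

/-- rows and error of one function: metric `D0 * N + ∑_S c n ‖x n‖²` -/
theorem rows {ι : Type*} (S : Finset ι) (x g : ι → ℂ) (c : ι → ℝ) {N D0 θ e : ℝ} (hN : ∑ n ∈ S, ‖x n‖ ^ 2 ≤ N)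
    (hθ : 0 < θ) (hθ' : θ ≤ D0) (hpos : ∀ n ∈ S, 0 < D0 + c n - θ) :
    -(∑ n ∈ S, ‖g n‖ ^ 2 / (4 * (D0 + c n - θ))) - e ^ 2 / (4 * θ)
      ≤ D0 * N + ∑ n ∈ S, c n * ‖x n‖ ^ 2 + ∑ n ∈ S, (g n * x n).re - e * Real.sqrt N := by
  have hN0 : 0 ≤ N := (Finset.sum_nonneg fun n _ => by positivity).trans hN
  have h1 : ∀ n ∈ S, -(‖g n‖ ^ 2 / (4 * (D0 + c n - θ))) ≤ (D0 + c n - θ) * ‖x n‖ ^ 2 + (g n * x n).re :=
    fun n hn => row_one _ _ (hpos n hn)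
  have h2 := Finset.sum_le_sum h1
  rw [Finset.sum_neg_distrib, Finset.sum_add_distrib] at h2
  have h3 : ∑ n ∈ S, (D0 + c n - θ) * ‖x n‖ ^ 2 = (D0 - θ) * ∑ n ∈ S, ‖x n‖ ^ 2 + ∑ n ∈ S, c n * ‖x n‖ ^ 2 := by
    rw [Finset.mul_sum, ← Finset.sum_add_distrib]
    exact Finset.sum_congr rfl fun n _ => by ring
  have h4 : (D0 - θ) * ∑ n ∈ S, ‖x n‖ ^ 2 ≤ (D0 - θ) * N := mul_le_mul_of_nonneg_left hN (by linarith)
  have h5 := err_one e N hθ hN0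
  rw [h3] at h2
  linarith

/-- one row with its own error -/
theorem row_err (g x : ℂ) {d e : ℝ} (hd : 0 < d) :
    -((‖g‖ + e) ^ 2 / (4 * d)) ≤ d * ‖x‖ ^ 2 + (g * x).re - e * ‖x‖ := by
  have h1 : -(‖g‖ * ‖x‖) ≤ (g * x).re := by
    have := Complex.abs_re_le_norm (g * x)
    rw [norm_mul] at this
    exact (abs_le.1 this).1
  have h3 : d * ‖x‖ ^ 2 - (‖g‖ + e) * ‖x‖ + (‖g‖ + e) ^ 2 / (4 * d) = (2 * d * ‖x‖ - (‖g‖ + e)) ^ 2 / (4 * d) := by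
    field_simp
    ring
  have h4 : 0 ≤ (2 * d * ‖x‖ - (‖g‖ + e)) ^ 2 / (4 * d) := by positivity
  linarith

/-- rows and errors of one function with exceptional indices `T` (own weights `d`, own errors `η`):
metric `D0 * (N - ∑_T ‖x‖²) + ∑_T d n ‖x n‖²` -/
theorem rows2 {ι : Type*} [DecidableEq ι] (S T : Finset ι) (x g : ι → ℂ) (d η : ι → ℝ) {N D0 θ e : ℝ}
    (hN : ∑ n ∈ S ∪ T, ‖x n‖ ^ 2 ≤ N) (hθ : 0 < θ) (hθ' : θ < D0) (hd : ∀ n ∈ T, 0 < d n)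
    (hη : ∀ n ∈ T, 0 ≤ η n) (hST : Disjoint S T) :
    -(∑ n ∈ S, ‖g n‖ ^ 2 / (4 * (D0 - θ))) - (∑ n ∈ T, (‖g n‖ + η n) ^ 2 / (4 * d n)) - e ^ 2 / (4 * θ)
      ≤ D0 * (N - ∑ n ∈ T, ‖x n‖ ^ 2) + ∑ n ∈ T, d n * ‖x n‖ ^ 2 + (∑ n ∈ S, (g n * x n).re
        + ∑ n ∈ T, (g n * x n).re) - e * Real.sqrt (N - ∑ n ∈ T, ‖x n‖ ^ 2) - ∑ n ∈ T, η n * ‖x n‖ := by
  rw [Finset.sum_union hST] at hN
  have h1 := rows S x g (fun _ => 0) (N := N - ∑ n ∈ T, ‖x n‖ ^ 2) (D0 := D0) (θ := θ) (e := e) (by linarith) hθ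
    hθ'.le (fun n _ => by linarith)
  have h2 : ∀ n ∈ T, -((‖g n‖ + η n) ^ 2 / (4 * d n)) ≤ d n * ‖x n‖ ^ 2 + (g n * x n).re - η n * ‖x n‖ :=
    fun n hn => row_err _ _ (hd n hn)
  have h3 := Finset.sum_le_sum h2
  rw [Finset.sum_neg_distrib, Finset.sum_sub_distrib, Finset.sum_add_distrib] at h3
  simp only [add_zero, zero_mul, Finset.sum_const_zero] at h1
  linarith

end Pool.Agent.Helper27.SH
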