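import Pool.Agent.Helper27.SH.Row

/-!
# Project RC, SHARP: the budget of zone I, one function (lists), a weight for every mode
-/

set_option autoImplicit false

open scoped BigOperators

namespace Pool.Agent.Helper27.SH

open Pool.Agent.Helper40.NR

/-- weights of one function (units `1/1000`): default `d`, part `t` paid for the norm error, exceptions `x` -/
structure WT where
  d : ℕ
  t : ℕ
  x : List (ℤ × ℕ)

/-- look up with default -/
def lkW (d : ℕ) (n : ℤ) : List (ℤ × ℕ) → ℕ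
  | [] => d
  | e :: L => if e.1 = n then e.2 else lkW d n L

def WT.w (W : WT) (n : ℤ) : ℕ := lkW W.d n W.x

/-- multiplicity of a mode (`two`: real functions, modes `n ≥ 0`) -/
def mu (two : Bool) (n : ℤ) : ℕ := if two = true ∧ n ≠ 0 then 2 else 1

/-- the metric of one function -/
noncomputable def MetF (two : Bool) (W : WT) (x : ℤ → ℂ) (N : ℝ) : ℝ :=
  (W.d : ℝ) / 1000 * N + (W.x.map fun e => ((e.2 : ℝ) - (W.d : ℝ)) / 1000 * ((mu two e.1 : ℝ) * ‖x e.1‖ ^ 2)).sum

/-- `w/1000 ≥ 1/(4 k/1000)` -/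
def w1 (k : ℕ) : ℕ := 250000 / k + 1
def w2 (k : ℕ) : ℕ := 125000 / k + 1

theorem w1_le {k : ℕ} (hk : 0 < k) : 1 / (4 * ((k : ℝ) / 1000)) ≤ (w1 k : ℝ) / 1000 := by
  have hk' : (0 : ℝ) < k := by exact_mod_cast hk
  have h1 : 250000 < (250000 / k + 1) * k := by
    calc 250000 < 250000 / k * k + k := Nat.lt_div_mul_add hk
      _ = (250000 / k + 1) * k := by ring
  have h2 : (250000 : ℝ) < (w1 k : ℝ) * k := by
    unfold w1
    exact_mod_cast h1
  rw [div_le_div_iff₀ (by positivity) (by norm_num)]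
  linarith

theorem w2_le {k : ℕ} (hk : 0 < k) : 1 / (4 * (2 * ((k : ℝ) / 1000))) ≤ (w2 k : ℝ) / 1000 := by
  have hk' : (0 : ℝ) < k := by exact_mod_cast hk
  have h1 : 125000 < (125000 / k + 1) * k := by
    calc 125000 < 125000 / k * k + k := Nat.lt_div_mul_add hk
      _ = (125000 / k + 1) * k := by ring
  have h2 : (125000 : ℝ) < (w2 k : ℝ) * k := by
    unfold w2
    exact_mod_cast h1
  rw [div_le_div_iff₀ (by positivity) (by norm_num)]
  linarith

/-- weight of the square of a row of mode `n` against `k/1000` -/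
def wm (two : Bool) (n : ℤ) (k : ℕ) : ℕ := if two = true ∧ n ≠ 0 then w2 k else w1 k

theorem wm_le (two : Bool) (n : ℤ) {k : ℕ} (hk : 0 < k) :
    1 / (4 * ((mu two n : ℝ) * ((k : ℝ) / 1000))) ≤ (wm two n k : ℝ) / 1000 := by
  unfold wm mu
  split_ifs
  · exact w2_le hk
  · rw [Nat.cast_one, one_mul]
    exact w1_le hk

/-- `≥ (17/12) e` -/
def sc17 (e : N2) : N2 := e.map fun m => (m.1, m.2.1, m.2.2 * 17 / 12 + 1)

theorem sc17_le {A y : ℝ} (hA : 0 ≤ A) (hy : 0 ≤ y) : ∀ e : N2, 17 / 12 * evN A y e ≤ evN A y (sc17 e)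
  | [] => by simp [sc17]
  | m :: e => by
    have ih := sc17_le hA hy e
    have e0 : sc17 (m :: e) = (m.1, m.2.1, m.2.2 * 17 / 12 + 1) :: sc17 e := rfl
    rw [e0, evN_cons, evN_cons, mul_add]
    refine add_le_add ?_ ih
    have h1 : (m.2.2 : ℝ) * 17 / 12 ≤ ((m.2.2 * 17 / 12 + 1 : ℕ) : ℝ) := by
      rw [div_le_iff₀ (by norm_num)]
      have h6 : m.2.2 * 17 < (m.2.2 * 17 / 12 + 1) * 12 := by omega
      exact_mod_cast h6.le
    calc 17 / 12 * ((m.2.2 : ℝ) / 1000000000 * (A ^ m.1 * y ^ m.2.1))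
        = (m.2.2 : ℝ) * 17 / 12 / 1000000000 * (A ^ m.1 * y ^ m.2.1) := by ring
      _ ≤ _ := by gcongr

/-- the error seen by the weak mode `n` (`h`: harmonic `2` of a real function) -/
def em (two : Bool) (n : ℤ) (e h : N2) : N2 :=
  if two = true ∧ n ≠ 0 then (if n = 2 then h else sc17 e) else e

/-- the square of one mode -/
def cm (two : Bool) (W : WT) (e h : N2) (L : RW) (n : ℤ) : ℕ × N2 :=
  if W.w n < W.d then (wm two n (W.w n), absF (lkR n L) ++ em two n e h) else (wm two n (W.w n - W.t), absF (lkR n L))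

/-- the costs of one function -/
def costF (two : Bool) (W : WT) (e h : N2) (L : RW) : List (ℕ × N2) :=
  (w1 W.t, e) :: (keys L).map (cm two W e h L)

/-- conditions on the weights -/
def WT.ok (two : Bool) (W : WT) (L : RW) : Bool :=
  decide (0 < W.t ∧ W.t < W.d) && decide ((W.x.map Prod.fst).Nodup)
  && (W.x.all fun e => decide (0 < e.2) && (decide (W.d ≤ e.2) || decide (e.1 ∈ keys L))
    && (!two || decide (0 ≤ e.1)))
  && decide ((keys L).Nodup) && (!two || (keys L).all fun n => decide (0 ≤ n)) && okR L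
  && (!two || (decide ((2 : ℤ) ∈ keys L) && decide (W.w 2 < W.d)))

theorem costN_map {A y : ℝ} (F : ℤ → ℕ × N2) (l : List ℤ) (nd : l.Nodup) :
    costN A y (l.map F) = ∑ n ∈ l.toFinset, ((F n).1 : ℝ) / 1000 * evN A y (F n).2 ^ 2 := by
  rw [List.sum_toFinset _ nd]
  unfold costN
  rw [List.map_map]
  rfl

theorem rsum_ge {A : ℝ} (hA : 0 ≤ A) (B : ℂ) (x : ℤ → ℂ) {L : RW} (hL : okR L = true) (nd : (keys L).Nodup) :
    -(∑ n ∈ (keys L).toFinset, evN A ‖B‖ (absF (lkR n L)) * ‖x n‖) ≤ rsum A B L x := by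
  rw [rsum_keys A B x L nd, ← List.sum_toFinset _ nd, ← Finset.sum_neg_distrib]
  refine Finset.sum_le_sum fun n _ => ?_
  have h1 := Complex.abs_re_le_norm ((starRingEnd ℂ) (evF A B (lkR n L)) * x n)
  rw [norm_mul, Complex.norm_conj] at h1
  have h2 := absF_le hA B (lkR_ne n L hL)
  have h3 := mul_le_mul_of_nonneg_right h2 (norm_nonneg (x n))
  have h4 := (abs_le.1 h1).1
  linarith

theorem frac_le {a c : ℝ} {w : ℕ} (hw : 1 / (4 * c) ≤ (w : ℝ) / 1000) :
    a ^ 2 / (4 * c) ≤ (w : ℝ) / 1000 * a ^ 2 := by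
  have : a ^ 2 / (4 * c) = 1 / (4 * c) * a ^ 2 := by ring
  rw [this]
  exact mul_le_mul_of_nonneg_right hw (sq_nonneg _)

theorem lkW_notin (d : ℕ) (n : ℤ) : ∀ L : List (ℤ × ℕ), n ∉ L.map Prod.fst → lkW d n L = d
  | [], _ => rfl
  | e :: L, h => by
    simp only [List.map_cons, List.mem_cons, not_or] at h
    unfold lkW
    rw [if_neg (fun h' => h.1 h'.symm)]
    exact lkW_notin d n L h.2

theorem lkW_mem (d : ℕ) : ∀ L : List (ℤ × ℕ), (L.map Prod.fst).Nodup → ∀ e ∈ L, lkW d e.1 L = e.2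
  | [], _, e, h => by simp at h
  | y :: L, nd, e, h => by
    simp only [List.map_cons, List.nodup_cons] at nd
    unfold lkW
    rcases List.mem_cons.1 h with rfl | h
    · rw [if_pos rfl]
    · have : y.1 ≠ e.1 := fun h' => nd.1 (h' ▸ List.mem_map_of_mem h)
      rw [if_neg this]
      exact lkW_mem d L nd.2 e h

/-- the norm error without the harmonic `2` of a real function -/
noncomputable def errS (two : Bool) (a h N : ℝ) (x : ℤ → ℂ) : ℝ :=
  if two = true then a * Real.sqrt (N - 2 * ‖x 2‖ ^ 2) + h * ‖x 2‖ else a * Real.sqrt N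

/-- the budget of one function -/
theorem fbud (two : Bool) {A : ℝ} (hA : 0 ≤ A) (B : ℂ) (x : ℤ → ℂ) {L : RW} {e h : N2} {W : WT} {N : ℝ}
    (hW : W.ok two L = true)
    (hN : ∀ S : Finset ℤ, (two = true → ∀ n ∈ S, 0 ≤ n) → ∑ n ∈ S, (mu two n : ℝ) * ‖x n‖ ^ 2 ≤ N) :
    -costN A ‖B‖ (costF two W e h L) ≤ MetF two W x N + rsum A B L x - errS two (evN A ‖B‖ e) (evN A ‖B‖ h) N x := by
  have hy := norm_nonneg B
  unfold WT.ok at hW
  simp only [Bool.and_eq_true, Bool.or_eq_true, Bool.not_eq_true', decide_eq_true_eq, List.all_eq_true] at hW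
  obtain ⟨⟨⟨⟨⟨⟨⟨ht, htd⟩, ndx⟩, hx⟩, nd⟩, hk⟩, hL⟩, h2k⟩ := hW
  set S := (keys L).toFinset with hS
  set X := (W.x.map Prod.fst).toFinset with hX
  set T := S.filter (fun n => W.w n < W.d) with hT
  have hTS : T ⊆ S := Finset.filter_subset _ _
  have hXe : ∀ n ∈ X, ∃ e' ∈ W.x, e'.1 = n ∧ W.w n = e'.2 := by
    intro n hn
    rw [hX, List.mem_toFinset, List.mem_map] at hn
    obtain ⟨e', he', rfl⟩ := hn
    exact ⟨e', he', rfl, lkW_mem W.d W.x ndx e' he'⟩
  have hXn : ∀ n, n ∉ X → W.w n = W.d := by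
    intro n hn
    rw [hX, List.mem_toFinset] at hn
    exact lkW_notin W.d n W.x hn
  have hpos : two = true → ∀ n ∈ S ∪ X, 0 ≤ n := by
    intro h2 n hn
    rcases Finset.mem_union.1 hn with hn | hn
    · rcases hk with hk | hk
      · rw [h2] at hk; exact absurd hk (by decide)
      · exact hk n (List.mem_toFinset.1 hn)
    · obtain ⟨e', he', rfl, _⟩ := hXe n hn
      rcases (hx e' he').2 with h | h
      · rw [h2] at h; exact absurd h (by decide)
      · exact h
  have hmu : ∀ n : ℤ, (0 : ℝ) < (mu two n : ℝ) := by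
    intro n
    unfold mu
    split_ifs <;> norm_num
  have hd1 : ∀ n ∈ T, (0 : ℝ) < (W.w n : ℝ) / 1000 := by
    intro n hn
    rw [hT, Finset.mem_filter] at hn
    by_cases h : n ∈ X
    · obtain ⟨e', he', rfl, h2⟩ := hXe n h
      have h3 := (hx e' he').1.1
      rw [h2]
      have : (0 : ℝ) < (e'.2 : ℝ) := by exact_mod_cast h3
      positivity
    · exact absurd hn.2 (by rw [hXn n h]; exact lt_irrefl _)
  have hd2 : ∀ n ∈ (S ∪ X) \ T, W.d ≤ W.w n := by
    intro n hn
    rw [Finset.mem_sdiff] at hn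
    by_cases hS' : n ∈ S
    · by_contra hlt
      exact hn.2 (by rw [hT, Finset.mem_filter]; exact ⟨hS', not_le.1 hlt⟩)
    · have hnX : n ∈ X := by
        rcases Finset.mem_union.1 hn.1 with h | h
        · exact absurd h hS'
        · exact h
      obtain ⟨e', he', rfl, h2⟩ := hXe n hnX
      rw [h2]
      rcases (hx e' he').1.2 with h | h
      · exact h
      · exact absurd (List.mem_toFinset.2 h) hS'
  have htr : (0 : ℝ) < (W.t : ℝ) / 1000 := by
    have : (0 : ℝ) < (W.t : ℝ) := by exact_mod_cast ht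
    positivity
  have htdr : (W.t : ℝ) / 1000 < (W.d : ℝ) / 1000 := by
    have : (W.t : ℝ) < (W.d : ℝ) := by exact_mod_cast htd
    linarith
  -- own error of the harmonic 2
  set T1 : Finset ℤ := if two = true then {2} else ∅ with hT1
  have hT1T : T1 ⊆ T := by
    intro n hn
    rw [hT1] at hn
    by_cases h2 : two = true
    · rw [if_pos h2, Finset.mem_singleton] at hn
      rcases h2k with h | h
      · rw [h2] at h; exact absurd h (by decide)
      · rw [hn, hT, Finset.mem_filter]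
        exact ⟨List.mem_toFinset.2 h.1, h.2⟩
    · rw [if_neg h2] at hn
      exact absurd hn (Finset.notMem_empty n)
  have hNT : ∑ n ∈ T, (mu two n : ℝ) * ‖x n‖ ^ 2 ≤ N :=
    hN T fun h2 n hn => hpos h2 n (Finset.mem_union_left _ (hTS hn))
  have hsp := split_norm T T1 hT1T (fun n => (mu two n : ℝ)) (fun n => if two = true ∧ n ≠ 0 then 17 / 12 else 1)
    (fun n => ‖x n‖) (fun _ => evN A ‖B‖ h) (N := N) (e := evN A ‖B‖ e) hNT (evN_nonneg hA hy e)
    (fun n _ => by
      unfold mu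
      split_ifs
      · exact ⟨by norm_num, norm_nonneg _, by norm_num⟩
      · exact ⟨zero_le_one, norm_nonneg _, by norm_num⟩)
  have herr : errS two (evN A ‖B‖ e) (evN A ‖B‖ h) N x = evN A ‖B‖ e * Real.sqrt (N - ∑ n ∈ T1, (mu two n : ℝ)
      * ‖x n‖ ^ 2) + ∑ n ∈ T1, evN A ‖B‖ h * ‖x n‖ := by
    unfold errS
    by_cases h2 : two = true
    · rw [if_pos h2, hT1, if_pos h2, Finset.sum_singleton, Finset.sum_singleton]
      have : (mu two 2 : ℝ) = 2 := by simp [mu, h2]
      rw [this]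
    · rw [if_neg h2, hT1, if_neg h2, Finset.sum_empty, Finset.sum_empty, sub_zero, add_zero]
  have hc := core_in S X T hTS (fun n => ‖x n‖) (fun n => evN A ‖B‖ (absF (lkR n L))) (fun n => (mu two n : ℝ))
    (fun n => if n ∈ T1 then evN A ‖B‖ h else (if two = true ∧ n ≠ 0 then 17 / 12 else 1) * evN A ‖B‖ e)
    (fun n => (W.w n : ℝ) / 1000) (N := N)
    (D0 := (W.d : ℝ) / 1000) (θ := (W.t : ℝ) / 1000) (e := evN A ‖B‖ e)
    (fun n _ => hmu n)
    hd1 (fun n hn => by rw [hXn n hn])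
    (fun n hn => by
      have h1 := hd2 n hn
      have : (W.d : ℝ) ≤ (W.w n : ℝ) := by exact_mod_cast h1
      linarith)
    (hN _ hpos) htr htdr
  have hr := rsum_ge hA B x hL nd
  -- the metric
  have hm : (W.d : ℝ) / 1000 * N + ∑ n ∈ X, ((W.w n : ℝ) / 1000 - (W.d : ℝ) / 1000) * ((mu two n : ℝ) * ‖x n‖ ^ 2)
      = MetF two W x N := by
    unfold MetF
    rw [hX, List.sum_toFinset _ ndx, List.map_map]
    congr 2
    refine List.map_congr_left fun e' he' => ?_
    have h2 : W.w e'.1 = e'.2 := lkW_mem W.d W.x ndx e' he'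
    simp only [Function.comp]
    rw [h2]
    ring
  -- the costs
  have hkk : ∑ n ∈ S \ T, evN A ‖B‖ (absF (lkR n L)) ^ 2 / (4 * ((mu two n : ℝ) * ((W.w n : ℝ) / 1000
        - (W.t : ℝ) / 1000)))
      + ∑ n ∈ T, (evN A ‖B‖ (absF (lkR n L)) + (if n ∈ T1 then evN A ‖B‖ h
        else (if two = true ∧ n ≠ 0 then 17 / 12 else 1) * evN A ‖B‖ e)) ^ 2
        / (4 * ((mu two n : ℝ) * ((W.w n : ℝ) / 1000)))
      + evN A ‖B‖ e ^ 2 / (4 * ((W.t : ℝ) / 1000)) ≤ costN A ‖B‖ (costF two W e h L) := by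
    unfold costF
    rw [costN_cons, costN_map _ _ nd, ← hS, ← Finset.sum_sdiff hTS]
    have k1 : ∑ n ∈ S \ T, evN A ‖B‖ (absF (lkR n L)) ^ 2 / (4 * ((mu two n : ℝ) * ((W.w n : ℝ) / 1000
        - (W.t : ℝ) / 1000))) ≤
        ∑ n ∈ S \ T, ((cm two W e h L n).1 : ℝ) / 1000 * evN A ‖B‖ (cm two W e h L n).2 ^ 2 := by
      refine Finset.sum_le_sum fun n hn => ?_
      have hn2 := hd2 n (Finset.mem_sdiff.2 ⟨Finset.mem_union_left _ (Finset.mem_sdiff.1 hn).1,
        (Finset.mem_sdiff.1 hn).2⟩)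
      have e1 : cm two W e h L n = (wm two n (W.w n - W.t), absF (lkR n L)) := by
        unfold cm
        rw [if_neg (not_lt.2 hn2)]
      rw [e1]
      have e2 : (W.w n : ℝ) / 1000 - (W.t : ℝ) / 1000 = ((W.w n - W.t : ℕ) : ℝ) / 1000 := by
        rw [Nat.cast_sub (by omega)]
        ring
      rw [e2]
      exact frac_le (wm_le two n (by omega))
    have k2 : ∑ n ∈ T, (evN A ‖B‖ (absF (lkR n L)) + (if n ∈ T1 then evN A ‖B‖ h
        else (if two = true ∧ n ≠ 0 then 17 / 12 else 1) * evN A ‖B‖ e)) ^ 2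
        / (4 * ((mu two n : ℝ) * ((W.w n : ℝ) / 1000))) ≤
        ∑ n ∈ T, ((cm two W e h L n).1 : ℝ) / 1000 * evN A ‖B‖ (cm two W e h L n).2 ^ 2 := by
      refine Finset.sum_le_sum fun n hn => ?_
      have hn' := hn
      rw [hT, Finset.mem_filter] at hn
      have e1 : cm two W e h L n = (wm two n (W.w n), absF (lkR n L) ++ em two n e h) := by
        unfold cm
        rw [if_pos hn.2]
      rw [e1, evN_append]
      have hw0 : 0 < W.w n := by
        have h1 := hd1 n hn'
        by_contra h0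
        have : W.w n = 0 := by omega
        rw [this] at h1
        simp at h1
      refine (frac_le (wm_le two n hw0)).trans ?_
      refine mul_le_mul_of_nonneg_left ?_ (by positivity)
      have q1 := evN_nonneg hA hy (absF (lkR n L))
      have q2 := evN_nonneg hA hy e
      have q3 : (if n ∈ T1 then evN A ‖B‖ h else (if two = true ∧ n ≠ 0 then 17 / 12 else 1) * evN A ‖B‖ e)
          ≤ evN A ‖B‖ (em two n e h) := by
        unfold em
        by_cases h2 : two = true
        · by_cases hn2 : n = 2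
          · have : n ∈ T1 := by rw [hT1, if_pos h2, hn2]; exact Finset.mem_singleton_self 2
            rw [if_pos this, if_pos ⟨h2, by rw [hn2]; norm_num⟩, if_pos hn2]
          · have : n ∉ T1 := by rw [hT1, if_pos h2, Finset.mem_singleton]; exact hn2
            rw [if_neg this, if_neg hn2]
            by_cases hn0 : n = 0
            · have h3 : ¬(two = true ∧ n ≠ 0) := fun h' => h'.2 hn0
              rw [if_neg h3, if_neg h3, one_mul]
            · have h3 : two = true ∧ n ≠ 0 := ⟨h2, hn0⟩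
              rw [if_pos h3, if_pos h3]
              exact sc17_le hA hy e
        · have h3 : ¬(two = true ∧ n ≠ 0) := fun h' => h2 h'.1
          have : n ∉ T1 := by rw [hT1, if_neg h2]; exact Finset.notMem_empty n
          rw [if_neg this, if_neg h3, if_neg h3, one_mul]
      have q4 : 0 ≤ (if n ∈ T1 then evN A ‖B‖ h else (if two = true ∧ n ≠ 0 then (17 : ℝ) / 12 else 1)
          * evN A ‖B‖ e) := by
        have q5 := evN_nonneg hA hy h
        split_ifs <;> positivity
      exact pow_le_pow_left₀ (by positivity) (by linarith) 2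
    have k3 := frac_le (a := evN A ‖B‖ e) (w1_le ht)
    simp only at k3 ⊢
    linarith
  rw [hm] at hc
  rw [herr]
  linarith

end Pool.Agent.Helper27.SH
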