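import Mathlib

/-!
# Project RC, SHARP: the budget of zone I, the numerical inequality with natural numbers

Coefficients in units of `10⁻⁹`, weights of the squares in units of `10⁻³`; everything is evaluated by the kernel.
-/

set_option autoImplicit false

namespace Pool.Agent.Helper27.SH

/-- polynomials in `(A, y)` with nonnegative coefficients: terms `(i, j, c)`, unit `10⁻⁹` -/
abbrev N2 := List (ℕ × ℕ × ℕ)

noncomputable def evN (A y : ℝ) (L : N2) : ℝ := (L.map fun m => (m.2.2 : ℝ) / 1000000000 * (A ^ m.1 * y ^ m.2.1)).sum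

@[simp] theorem evN_nil (A y : ℝ) : evN A y [] = 0 := rfl
@[simp] theorem evN_cons (A y : ℝ) (m : ℕ × ℕ × ℕ) (L : N2) :
    evN A y (m :: L) = (m.2.2 : ℝ) / 1000000000 * (A ^ m.1 * y ^ m.2.1) + evN A y L := by simp [evN]

theorem evN_append (A y : ℝ) (K L : N2) : evN A y (K ++ L) = evN A y K + evN A y L := by
  simp [evN]

theorem evN_nonneg {A y : ℝ} (hA : 0 ≤ A) (hy : 0 ≤ y) : ∀ L : N2, 0 ≤ evN A y L
  | [] => le_refl _
  | m :: L => by
    rw [evN_cons]
    have := evN_nonneg hA hy L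
    positivity

theorem evN_mono {A y A' y' : ℝ} (hA : 0 ≤ A) (hy : 0 ≤ y) (hA' : A ≤ A') (hy' : y ≤ y') : ∀ L : N2,
    evN A y L ≤ evN A' y' L
  | [] => le_refl _
  | m :: L => by
    rw [evN_cons, evN_cons]
    refine add_le_add (mul_le_mul_of_nonneg_left ?_ (by positivity)) (evN_mono hA hy hA' hy' L)
    exact mul_le_mul (pow_le_pow_left₀ hA hA' _) (pow_le_pow_left₀ hy hy' _) (by positivity)
      (pow_nonneg (hA.trans hA') _)

/-- degrees at least `d` (and at most `K`) -/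
def okN (d K : ℕ) (L : N2) : Bool := L.all fun m => decide (d ≤ m.1 + m.2.1) && decide (m.1 + m.2.1 ≤ K)

theorem okN_cons {d K : ℕ} {m : ℕ × ℕ × ℕ} {L : N2} (h : okN d K (m :: L) = true) :
    (d ≤ m.1 + m.2.1 ∧ m.1 + m.2.1 ≤ K) ∧ okN d K L = true := by
  simpa [okN] using h

/-- scaling by `τ ≤ 1` -/
theorem evN_scale {d K : ℕ} {A y τ : ℝ} (hA : 0 ≤ A) (hy : 0 ≤ y) (h0 : 0 ≤ τ) (h1 : τ ≤ 1) : ∀ L : N2,
    okN d K L = true → evN (τ * A) (τ * y) L ≤ τ ^ d * evN A y L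
  | [], _ => by simp
  | m :: L, h => by
    obtain ⟨⟨h3, _⟩, h4⟩ := okN_cons h
    have := evN_scale hA hy h0 h1 L h4
    rw [evN_cons, evN_cons, mul_add]
    refine add_le_add ?_ this
    have h6 : τ ^ (m.1 + m.2.1) ≤ τ ^ d := pow_le_pow_of_le_one h0 h1 h3
    have h7 : (τ * A) ^ m.1 * (τ * y) ^ m.2.1 = τ ^ (m.1 + m.2.1) * (A ^ m.1 * y ^ m.2.1) := by
      rw [mul_pow, mul_pow, pow_add]; ring
    rw [h7, mul_left_comm]
    exact mul_le_mul_of_nonneg_right h6 (by positivity)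

/-- homogeneous of degree `d`: equality -/
theorem evN_hom {d : ℕ} (A y τ : ℝ) : ∀ L : N2, okN d d L = true → evN (τ * A) (τ * y) L = τ ^ d * evN A y L
  | [], _ => by simp
  | m :: L, h => by
    obtain ⟨⟨h3, h3'⟩, h4⟩ := okN_cons h
    have e : m.1 + m.2.1 = d := le_antisymm h3' h3
    rw [evN_cons, evN_cons, evN_hom A y τ L h4, mul_add, ← e, mul_pow, mul_pow, pow_add]
    ring

/-- value at `(a/D, b/D)` times `10⁹ D^K` -/
def evD (D K a b : ℕ) : N2 → ℕ
  | [] => 0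
  | m :: L => m.2.2 * (a ^ m.1 * b ^ m.2.1 * D ^ (K - (m.1 + m.2.1))) + evD D K a b L

theorem evD_eq {D : ℕ} (hD : 0 < D) (d K a b : ℕ) : ∀ L : N2, okN d K L = true →
    evN ((a : ℝ) / D) ((b : ℝ) / D) L = (evD D K a b L : ℝ) / (1000000000 * (D : ℝ) ^ K)
  | [], _ => by simp [evD]
  | m :: L, h => by
    obtain ⟨⟨_, h3⟩, h4⟩ := okN_cons h
    have hD' : (D : ℝ) ≠ 0 := by exact_mod_cast hD.ne'
    have e : (D : ℝ) ^ K = (D : ℝ) ^ (m.1 + m.2.1) * (D : ℝ) ^ (K - (m.1 + m.2.1)) := by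
      rw [← pow_add]; congr 1; omega
    rw [evN_cons, evD_eq hD d K a b L h4, evD]
    push_cast
    rw [add_div, div_pow, div_pow]
    congr 1
    rw [e, pow_add]
    field_simp

/-- squares: weight `w/1000` -/
noncomputable def costN (A y : ℝ) (W : List (ℕ × N2)) : ℝ := (W.map fun w => (w.1 : ℝ) / 1000 * evN A y w.2 ^ 2).sum

@[simp] theorem costN_nil (A y : ℝ) : costN A y [] = 0 := rfl
@[simp] theorem costN_cons (A y : ℝ) (w : ℕ × N2) (W : List (ℕ × N2)) :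
    costN A y (w :: W) = (w.1 : ℝ) / 1000 * evN A y w.2 ^ 2 + costN A y W := by simp [costN]

theorem costN_append (A y : ℝ) (K L : List (ℕ × N2)) : costN A y (K ++ L) = costN A y K + costN A y L := by
  simp [costN]

theorem costN_mono {A y A' y' : ℝ} (hA : 0 ≤ A) (hy : 0 ≤ y) (hA' : A ≤ A') (hy' : y ≤ y') :
    ∀ W : List (ℕ × N2), costN A y W ≤ costN A' y' W
  | [] => le_refl _
  | w :: W => by
    rw [costN_cons, costN_cons]
    refine add_le_add (mul_le_mul_of_nonneg_left ?_ (by positivity)) (costN_mono hA hy hA' hy' W)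
    exact pow_le_pow_left₀ (evN_nonneg hA hy _) (evN_mono hA hy hA' hy' _) 2

def okW (K : ℕ) (W : List (ℕ × N2)) : Bool := W.all fun w => okN 2 K w.2

theorem okW_cons {K : ℕ} {w : ℕ × N2} {W : List (ℕ × N2)} (h : okW K (w :: W) = true) :
    okN 2 K w.2 = true ∧ okW K W = true := by
  simpa [okW] using h

theorem costN_scale {K : ℕ} {A y τ : ℝ} (hA : 0 ≤ A) (hy : 0 ≤ y) (h0 : 0 ≤ τ) (h1 : τ ≤ 1) :
    ∀ W : List (ℕ × N2), okW K W = true → costN (τ * A) (τ * y) W ≤ τ ^ 4 * costN A y W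
  | [], _ => by simp
  | w :: W, h => by
    obtain ⟨h3, h4⟩ := okW_cons h
    have := costN_scale hA hy h0 h1 W h4
    rw [costN_cons, costN_cons, mul_add]
    refine add_le_add ?_ this
    have h6 := evN_scale hA hy h0 h1 w.2 h3
    have h7 : 0 ≤ evN (τ * A) (τ * y) w.2 := evN_nonneg (mul_nonneg h0 hA) (mul_nonneg h0 hy) _
    have h8 : evN (τ * A) (τ * y) w.2 ^ 2 ≤ (τ ^ 2 * evN A y w.2) ^ 2 := pow_le_pow_left₀ h7 h6 2
    calc (w.1 : ℝ) / 1000 * evN (τ * A) (τ * y) w.2 ^ 2 ≤ w.1 / 1000 * (τ ^ 2 * evN A y w.2) ^ 2 :=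
          mul_le_mul_of_nonneg_left h8 (by positivity)
      _ = τ ^ 4 * (w.1 / 1000 * evN A y w.2 ^ 2) := by ring

def coD (D K a b : ℕ) : List (ℕ × N2) → ℕ
  | [] => 0
  | w :: W => w.1 * evD D K a b w.2 ^ 2 + coD D K a b W

theorem coD_eq {D : ℕ} (hD : 0 < D) (K a b : ℕ) : ∀ W : List (ℕ × N2), okW K W = true →
    costN ((a : ℝ) / D) ((b : ℝ) / D) W = (coD D K a b W : ℝ) / (1000 * (1000000000 * (D : ℝ) ^ K) ^ 2)
  | [], _ => by simp [coD]
  | w :: W, h => by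
    obtain ⟨h3, h4⟩ := okW_cons h
    rw [costN_cons, coD_eq hD K a b W h4, evD_eq hD 2 K a b w.2 h3, coD]
    push_cast
    rw [add_div, div_pow]
    congr 1
    rw [div_mul_div_comm]

/-- one box of the segment `A + (8/5) y = Rn/Rd`: `A = 8 Rn (n-k)/D`, `y = 5 Rn k/D`, `D = 8 Rd n` -/
def chkBN (Rn Rd n K : ℕ) (V N : N2) (W : List (ℕ × N2)) (k : ℕ) : Bool :=
  let D := 8 * Rd * n
  let S := 1000000000 * D ^ K
  decide (evD D K (8 * Rn * (n - k)) (5 * Rn * (k + 1)) N * (1000 * S) + coD D K (8 * Rn * (n - k)) (5 * Rn * (k + 1)) W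
    ≤ evD D K (8 * Rn * (n - (k + 1))) (5 * Rn * k) V * (1000 * S))

/-- the whole check -/
def chkN (Rn Rd n K : ℕ) (V N : N2) (W : List (ℕ × N2)) : Bool :=
  okN 4 4 V && okN 4 K N && okW K W && decide (4 ≤ K) && (List.range n).all fun k => chkBN Rn Rd n K V N W k

theorem okN_le {d K K' : ℕ} (hK : K ≤ K') : ∀ L : N2, okN d K L = true → okN d K' L = true
  | [], _ => rfl
  | m :: L, h => by
    obtain ⟨⟨h1, h2⟩, h3⟩ := okN_cons h
    have := okN_le hK L h3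
    simp only [okN, List.all_cons, Bool.and_eq_true, decide_eq_true_eq] at this ⊢
    exact ⟨⟨h1, by omega⟩, this⟩

/-- the boxes in real numbers -/
theorem chkBN_real {Rn Rd n K : ℕ} {V N : N2} {W : List (ℕ × N2)} (hd : 0 < Rd) (hn : 0 < n) (hV : okN 4 4 V = true)
    (hN : okN 4 K N = true) (hW : okW K W = true) (hK : 4 ≤ K) {k : ℕ} (h : chkBN Rn Rd n K V N W k = true) :
    evN (((8 * Rn * (n - k) : ℕ) : ℝ) / ((8 * Rd * n : ℕ) : ℝ)) (((5 * Rn * (k + 1) : ℕ) : ℝ) / ((8 * Rd * n : ℕ) : ℝ)) N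
      + costN (((8 * Rn * (n - k) : ℕ) : ℝ) / ((8 * Rd * n : ℕ) : ℝ))
        (((5 * Rn * (k + 1) : ℕ) : ℝ) / ((8 * Rd * n : ℕ) : ℝ)) W
      ≤ evN (((8 * Rn * (n - (k + 1)) : ℕ) : ℝ) / ((8 * Rd * n : ℕ) : ℝ))
        (((5 * Rn * k : ℕ) : ℝ) / ((8 * Rd * n : ℕ) : ℝ)) V := by
  have hD : 0 < 8 * Rd * n := by positivity
  rw [evD_eq hD 4 K _ _ N hN, coD_eq hD K _ _ W hW, evD_eq hD 4 K _ _ V (okN_le hK V hV)]
  unfold chkBN at h
  simp only [decide_eq_true_eq] at h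
  set D := 8 * Rd * n with hDd
  set x := evD D K (8 * Rn * (n - k)) (5 * Rn * (k + 1)) N
  set c := coD D K (8 * Rn * (n - k)) (5 * Rn * (k + 1)) W
  set v := evD D K (8 * Rn * (n - (k + 1))) (5 * Rn * k) V
  have hDr : (0 : ℝ) < (D : ℝ) := by exact_mod_cast hD
  have h' : (x : ℝ) * (1000 * (1000000000 * (D : ℝ) ^ K)) + c ≤ v * (1000 * (1000000000 * (D : ℝ) ^ K)) := by
    exact_mod_cast h
  set S : ℝ := 1000000000 * (D : ℝ) ^ K with hS
  have hS0 : 0 < S := by positivity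
  have e : (x : ℝ) / S + c / (1000 * S ^ 2) = (x * (1000 * S) + c) / (1000 * S ^ 2) := by
    field_simp
  have e2 : (v : ℝ) / S = v * (1000 * S) / (1000 * S ^ 2) := by
    field_simp
  rw [e, e2]
  exact div_le_div_of_nonneg_right h' (by positivity)

/-- soundness of the check -/
theorem chkN_sound {Rn Rd n K : ℕ} {V N : N2} {W : List (ℕ × N2)} (hRn : 0 < Rn) (hRd : 0 < Rd) (hn : 0 < n)
    (h : chkN Rn Rd n K V N W = true) {A y : ℝ} (hA : 0 ≤ A) (hy : 0 ≤ y) (hz : A + 8 / 5 * y ≤ (Rn : ℝ) / Rd) :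
    evN A y N + costN A y W ≤ evN A y V := by
  unfold chkN at h
  simp only [Bool.and_eq_true, decide_eq_true_eq] at h
  obtain ⟨⟨⟨⟨hV, hN⟩, hW⟩, hK⟩, hB⟩ := h
  have hRdr : (0 : ℝ) < (Rd : ℝ) := by exact_mod_cast hRd
  have hRnr : (0 : ℝ) < (Rn : ℝ) := by exact_mod_cast hRn
  set R : ℝ := (Rn : ℝ) / Rd with hRdef
  have hRr : 0 < R := div_pos hRnr hRdr
  have hnr : (0 : ℝ) < (n : ℝ) := by exact_mod_cast hn
  -- the segment
  have seg : ∀ A y : ℝ, 0 ≤ A → 0 ≤ y → A + 8 / 5 * y = R → evN A y N + costN A y W ≤ evN A y V := by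
    intro A y hA hy hz
    have hyR : 8 / 5 * y ≤ R := by linarith
    set q : ℝ := 8 / 5 * y / R * n with hq
    have hq0 : 0 ≤ q := by positivity
    have hqn : q ≤ n := by
      rw [hq]
      have : 8 / 5 * y / R ≤ 1 := (div_le_one hRr).2 hyR
      nlinarith
    obtain ⟨k, hk, hk1, hk2⟩ : ∃ k : ℕ, k < n ∧ (k : ℝ) ≤ q ∧ q ≤ k + 1 := by
      rcases lt_or_eq_of_le hqn with h1 | h1
      · refine ⟨⌊q⌋₊, (Nat.floor_lt hq0).2 h1, Nat.floor_le hq0, (Nat.lt_floor_add_one q).le⟩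
      · refine ⟨n - 1, by omega, ?_, ?_⟩
        · rw [h1, Nat.cast_sub (by omega)]; simp
        · rw [h1, Nat.cast_sub (by omega)]; simp
    have hyq : 8 / 5 * y = R * q / n := by
      rw [hq]; field_simp
    have e1 : R * k / n ≤ 8 / 5 * y := by
      rw [hyq]; gcongr
    have e2 : 8 / 5 * y ≤ R * (k + 1) / n := by
      rw [hyq]; gcongr
    have hb := chkBN_real hRd hn hV hN hW hK (List.all_eq_true.1 hB k (List.mem_range.2 hk))
    set A2 : ℝ := ((8 * Rn * (n - k) : ℕ) : ℝ) / ((8 * Rd * n : ℕ) : ℝ) with hA2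
    set y2 : ℝ := ((5 * Rn * (k + 1) : ℕ) : ℝ) / ((8 * Rd * n : ℕ) : ℝ) with hy2
    set A1 : ℝ := ((8 * Rn * (n - (k + 1)) : ℕ) : ℝ) / ((8 * Rd * n : ℕ) : ℝ) with hA1
    set y1 : ℝ := ((5 * Rn * k : ℕ) : ℝ) / ((8 * Rd * n : ℕ) : ℝ) with hy1
    have v1 : A1 = R - R * (k + 1) / n := by
      rw [hA1, hRdef]
      push_cast [Nat.cast_sub (show k + 1 ≤ n by omega)]
      field_simp
    have v2 : A2 = R - R * k / n := by
      rw [hA2, hRdef]
      push_cast [Nat.cast_sub (show k ≤ n by omega)]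
      field_simp
    have v3 : y1 = 5 / 8 * (R * k / n) := by
      rw [hy1, hRdef]; push_cast; field_simp
    have v4 : y2 = 5 / 8 * (R * (k + 1) / n) := by
      rw [hy2, hRdef]; push_cast; field_simp
    have c1 : A1 ≤ A := by rw [v1]; linarith
    have c2 : A ≤ A2 := by rw [v2]; linarith
    have c3 : y1 ≤ y := by rw [v3]; linarith
    have c4 : y ≤ y2 := by rw [v4]; linarith
    have c5 : 0 ≤ A1 := by rw [hA1]; positivity
    have c6 : 0 ≤ y1 := by rw [hy1]; positivity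
    have m1 := evN_mono hA hy c2 c4 N
    have m2 := costN_mono hA hy c2 c4 W
    have m3 := evN_mono c5 c6 c1 c3 V
    linarith
  -- scaling
  rcases (add_nonneg hA (mul_nonneg (by norm_num : (0:ℝ) ≤ 8 / 5) hy)).eq_or_lt with h0 | h0
  · have hA0 : A = 0 := by nlinarith
    have hy0 : y = 0 := by nlinarith
    have t := seg R 0 hRr.le le_rfl (by ring)
    have a1 := evN_scale hRr.le le_rfl (le_refl (0 : ℝ)) zero_le_one N hN
    have a2 := costN_scale hRr.le le_rfl (le_refl (0 : ℝ)) zero_le_one W hW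
    have a3 := evN_hom R 0 0 V hV
    rw [hA0, hy0]
    simp only [zero_mul] at a1 a2 a3
    norm_num at a1 a2 a3
    linarith
  · set τ : ℝ := (A + 8 / 5 * y) / R with hτ
    have hτ0 : 0 < τ := div_pos h0 hRr
    have hτ1 : τ ≤ 1 := (div_le_one hRr).2 hz
    have hτR : τ * R = A + 8 / 5 * y := by rw [hτ]; field_simp
    have b1 : τ * (A / τ) = A := by field_simp
    have b2 : τ * (y / τ) = y := by field_simp
    have b3 : A / τ + 8 / 5 * (y / τ) = R := by
      have : τ * (A / τ + 8 / 5 * (y / τ)) = τ * R := by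
        rw [hτR]; linear_combination b1 + 8 / 5 * b2
      exact mul_left_cancel₀ hτ0.ne' this
    have t := seg (A / τ) (y / τ) (by positivity) (by positivity) b3
    have a1 := evN_scale (A := A / τ) (y := y / τ) (by positivity) (by positivity) hτ0.le hτ1 N hN
    have a2 := costN_scale (A := A / τ) (y := y / τ) (by positivity) (by positivity) hτ0.le hτ1 W hW
    have a3 := evN_hom (A / τ) (y / τ) τ V hV
    rw [b1, b2] at a1 a2 a3
    have hp : 0 ≤ τ ^ 4 := by positivity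
    have t2 := mul_le_mul_of_nonneg_left t hp
    rw [a3]
    linarith

end Pool.Agent.Helper27.SH
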