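import Pool.Agent.Helper27.SH.Fin
import Pool.Agent.Helper87.RC.M_BIL
import Pool.Agent.Helper49.RC.StSharp

/-!
# Project RC, SHARP: the budget of zone I, Parseval and the modes `-3`, `-5`
-/

set_option autoImplicit false

open MeasureTheory Set Filter
open scoped BigOperators

namespace Pool.Agent.Helper27.SH

open Pool.Agent.Helper40.NR
open Helper56.RC (fc)
open Helper87.RC (BM pars)
open Helper49.Sharp (mean)

theorem pars_fin {f : ℝ → ℂ} {C : ℝ} (h : BM f C) (S : Finset ℤ) :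
    ∑ n ∈ S, ‖fc f n‖ ^ 2 ≤ mean fun t => ‖f t‖ ^ 2 :=
  sum_le_hasSum S (fun _ _ => sq_nonneg _) (pars h)

/-! ### the modes `-3`, `-5` -/

def bad (e : ℤ × FP) : Bool := decide (e.1 = -3 ∨ e.1 = -5)

/-- `(11/5) A y e` -/
def etaE (e : N2) : N2 := e.map fun m => (m.1 + 1, m.2.1 + 1, m.2.2 * 11 / 5 + 1)

theorem etaE_le {A y : ℝ} (hA : 0 ≤ A) (hy : 0 ≤ y) : ∀ e : N2, 11 / 5 * (A * y) * evN A y e ≤ evN A y (etaE e)
  | [] => by simp [etaE]
  | m :: e => by
    have ih := etaE_le hA hy e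
    have e0 : etaE (m :: e) = (m.1 + 1, m.2.1 + 1, m.2.2 * 11 / 5 + 1) :: etaE e := rfl
    rw [e0, evN_cons, evN_cons, mul_add]
    refine add_le_add ?_ ih
    have h1 : (m.2.2 : ℝ) * 11 / 5 ≤ ((m.2.2 * 11 / 5 + 1 : ℕ) : ℝ) := by
      rw [div_le_iff₀ (by norm_num)]
      have h6 : m.2.2 * 11 < (m.2.2 * 11 / 5 + 1) * 5 := by omega
      exact_mod_cast h6.le
    calc 11 / 5 * (A * y) * ((m.2.2 : ℝ) / 1000000000 * (A ^ m.1 * y ^ m.2.1))
        = (m.2.2 : ℝ) * 11 / 5 / 1000000000 * (A ^ (m.1 + 1) * y ^ (m.2.1 + 1)) := by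
          rw [pow_succ, pow_succ]; ring
      _ ≤ _ := by gcongr

/-- the error of the bad modes -/
def badE : RW → N2
  | [] => []
  | e :: L => if bad e then etaE (absF e.2) ++ badE L else badE L

def goodR : RW → RW
  | [] => []
  | e :: L => if bad e then goodR L else e :: goodR L

theorem rsum_good {A : ℝ} (hA : 0 ≤ A) (B : ℂ) {s : ℤ → ℂ} {N : ℝ}
    (h3 : ‖s (-3)‖ ≤ 11 / 5 * (A * ‖B‖) * Real.sqrt N) (h5 : ‖s (-5)‖ ≤ 11 / 5 * (A * ‖B‖) * Real.sqrt N) :
    ∀ L : RW, okR L = true → |rsum A B L s - rsum A B (goodR L) s| ≤ evN A ‖B‖ (badE L) * Real.sqrt N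
  | [], _ => by simp [goodR, badE]
  | e :: L, h => by
    obtain ⟨h1, h2⟩ := okR_cons.1 h
    have ih := rsum_good hA B h3 h5 L h2
    have hy := norm_nonneg B
    unfold goodR badE
    by_cases hb : bad e = true
    · rw [if_pos hb, if_pos hb, rsum_cons, evN_append, add_mul]
      have hs : ‖s e.1‖ ≤ 11 / 5 * (A * ‖B‖) * Real.sqrt N := by
        unfold bad at hb
        rw [decide_eq_true_eq] at hb
        rcases hb with hb | hb <;> rw [hb] <;> assumption
      have k1 := Complex.abs_re_le_norm ((starRingEnd ℂ) (evF A B e.2) * s e.1)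
      rw [norm_mul, Complex.norm_conj] at k1
      have k2 := absF_le hA B h1
      have k3 : ‖evF A B e.2‖ * ‖s e.1‖ ≤ evN A ‖B‖ (etaE (absF e.2)) * Real.sqrt N := by
        calc ‖evF A B e.2‖ * ‖s e.1‖ ≤ evN A ‖B‖ (absF e.2) * (11 / 5 * (A * ‖B‖) * Real.sqrt N) :=
              mul_le_mul k2 hs (norm_nonneg _) (evN_nonneg hA hy _)
          _ = 11 / 5 * (A * ‖B‖) * evN A ‖B‖ (absF e.2) * Real.sqrt N := by ring
          _ ≤ _ := mul_le_mul_of_nonneg_right (etaE_le hA hy _) (Real.sqrt_nonneg _)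
      have k4 := k1.trans k3
      rw [abs_le] at *
      constructor <;> linarith [ih.1, ih.2, k4.1, k4.2]
    · rw [if_neg hb, if_neg hb, rsum_cons, rsum_cons]
      have e1 : ((starRingEnd ℂ) (evF A B e.2) * s e.1).re + rsum A B L s
          - (((starRingEnd ℂ) (evF A B e.2) * s e.1).re + rsum A B (goodR L) s) =
          rsum A B L s - rsum A B (goodR L) s := by ring
      rw [e1]
      exact ih

/-- the gradient data without the bad modes -/
def GE.good (g : GE) : GE := ⟨goodR g.z, g.p, g.r, g.ez ++ badE g.z, g.e2, g.h2, g.e3, g.h3⟩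

theorem GEK.good {A : ℝ} (hA : 0 ≤ A) {B : ℂ} {g : GE} {s p r : ℤ → ℂ} {Nz Np Nr L : ℝ} (hg : g.ok = true)
    (h3 : ‖s (-3)‖ ≤ 11 / 5 * (A * ‖B‖) * Real.sqrt Nz) (h5 : ‖s (-5)‖ ≤ 11 / 5 * (A * ‖B‖) * Real.sqrt Nz)
    (h : GEK A B g s p r Nz Np Nr L) : GEK A B g.good s p r Nz Np Nr L := by
  simp only [GE.ok, Bool.and_eq_true] at hg
  have k := rsum_good hA B h3 h5 g.z hg.1.1
  unfold GEK GE.good at *
  simp only
  rw [evN_append, add_mul]
  rw [abs_le] at *
  constructor <;> linarith [h.1, h.2, k.1, k.2]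

end Pool.Agent.Helper27.SH
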