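import Pool.Agent.Helper27.SH.NumN
import Pool.Agent.Helper40.NR.Err

/-!
# Project RC, SHARP: the budget of zone I, lists of rows

Rows are lists `(mode, coefficient)`, the coefficient in helper40's ring (`FP`: denominator, polynomial in `A`, `B`,
`conj B` over `ℤ[√3, i]`). Addition of two lists, folding of the negative modes (real functions), bounds by absolute
values, and the budget of one function.
-/

set_option autoImplicit false

open scoped BigOperators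

namespace Pool.Agent.Helper27.SH

open Pool.Agent.Helper40.NR

/-- rows: `(mode, coefficient)` -/
abbrev RW := List (ℤ × FP)

/-- `∑ Re (conj g_n x_n)` -/
noncomputable def rsum (A : ℝ) (B : ℂ) (L : RW) (x : ℤ → ℂ) : ℝ :=
  (L.map fun e => ((starRingEnd ℂ) (evF A B e.2) * x e.1).re).sum

@[simp] theorem rsum_nil (A : ℝ) (B : ℂ) (x : ℤ → ℂ) : rsum A B [] x = 0 := rfl
@[simp] theorem rsum_cons (A : ℝ) (B : ℂ) (e : ℤ × FP) (L : RW) (x : ℤ → ℂ) :
    rsum A B (e :: L) x = ((starRingEnd ℂ) (evF A B e.2) * x e.1).re + rsum A B L x := by simp [rsum]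

/-- the denominators do not vanish -/
def okR (L : RW) : Bool := L.all fun e => decide (e.2.1 ≠ 0)

theorem okR_cons {e : ℤ × FP} {L : RW} : okR (e :: L) = true ↔ e.2.1 ≠ 0 ∧ okR L = true := by
  simp [okR]

/-- insertion -/
def insR (e : ℤ × FP) : RW → RW
  | [] => [e]
  | x :: L => if x.1 = e.1 then (x.1, addF e.2 x.2) :: L else x :: insR e L

theorem okR_ins {e : ℤ × FP} (he : e.2.1 ≠ 0) : ∀ L : RW, okR L = true → okR (insR e L) = true
  | [], _ => by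
    unfold insR
    exact okR_cons.2 ⟨he, rfl⟩
  | x :: L, h => by
    obtain ⟨h1, h2⟩ := okR_cons.1 h
    unfold insR
    split_ifs with hx
    · exact okR_cons.2 ⟨addF_ne he h1, h2⟩
    · exact okR_cons.2 ⟨h1, okR_ins he L h2⟩

theorem rsum_ins (A : ℝ) (B : ℂ) (x : ℤ → ℂ) {e : ℤ × FP} (he : e.2.1 ≠ 0) : ∀ L : RW, okR L = true →
    rsum A B (insR e L) x = ((starRingEnd ℂ) (evF A B e.2) * x e.1).re + rsum A B L x
  | [], _ => by simp [insR]
  | y :: L, h => by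
    obtain ⟨h1, h2⟩ := okR_cons.1 h
    unfold insR
    split_ifs with hx
    · rw [rsum_cons, rsum_cons, evF_add A B he h1, map_add, add_mul, Complex.add_re, hx]
      ring
    · rw [rsum_cons, rsum_cons, rsum_ins A B x he L h2]
      ring

/-- addition with merging -/
def addR : RW → RW → RW
  | [], L => L
  | e :: K, L => addR K (insR e L)

theorem okR_add : ∀ K L : RW, okR K = true → okR L = true → okR (addR K L) = true
  | [], _, _, h => h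
  | e :: K, L, h, h' => by
    obtain ⟨h1, h2⟩ := okR_cons.1 h
    exact okR_add K _ h2 (okR_ins h1 L h')

theorem rsum_add (A : ℝ) (B : ℂ) (x : ℤ → ℂ) : ∀ K L : RW, okR K = true → okR L = true →
    rsum A B (addR K L) x = rsum A B K x + rsum A B L x
  | [], _, _, _ => by simp [addR]
  | e :: K, L, h, h' => by
    obtain ⟨h1, h2⟩ := okR_cons.1 h
    rw [addR, rsum_add A B x K _ h2 (okR_ins h1 L h'), rsum_ins A B x h1 L h', rsum_cons]
    ring

theorem evF_cj (A : ℝ) (B : ℂ) (f : FP) : evF A B (f.1, cjP f.2) = (starRingEnd ℂ) (evF A B f) := by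
  unfold evF
  rw [evP_cj, map_div₀]
  congr 1
  have : ((f.1 : ℤ) : ℂ) = (((f.1 : ℤ) : ℝ) : ℂ) := by push_cast; rfl
  rw [this, Complex.conj_ofReal]

/-- real part -/
def reF (f : FP) : FP := (2 * f.1, addP f.2 (cjP f.2))

theorem evF_re (A : ℝ) (B : ℂ) {f : FP} (hf : f.1 ≠ 0) : evF A B (reF f) = (((evF A B f).re : ℝ) : ℂ) := by
  have h1 : ((f.1 : ℤ) : ℂ) ≠ 0 := by exact_mod_cast hf
  have h2 : evF A B (reF f) = (evF A B f + (starRingEnd ℂ) (evF A B f)) / 2 := by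
    rw [← evF_cj]
    unfold evF reF
    simp only
    rw [evP_add]
    push_cast
    field_simp
  rw [h2, Complex.add_conj]
  push_cast
  ring

/-- negative modes of a real function are folded -/
def foldR : RW → RW
  | [] => []
  | e :: L => if e.1 < 0 then insR (-e.1, (e.2.1, cjP e.2.2)) (foldR L)
    else if e.1 = 0 then insR (0, reF e.2) (foldR L) else insR e (foldR L)

theorem reF_ne {f : FP} (hf : f.1 ≠ 0) : (reF f).1 ≠ 0 := mul_ne_zero two_ne_zero hf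

theorem okR_fold : ∀ L : RW, okR L = true → okR (foldR L) = true
  | [], _ => rfl
  | e :: L, h => by
    obtain ⟨h1, h2⟩ := okR_cons.1 h
    unfold foldR
    split_ifs
    · exact okR_ins (e := (-e.1, (e.2.1, cjP e.2.2))) h1 _ (okR_fold L h2)
    · exact okR_ins (e := (0, reF e.2)) (reF_ne h1) _ (okR_fold L h2)
    · exact okR_ins h1 _ (okR_fold L h2)

theorem rsum_fold (A : ℝ) (B : ℂ) {x : ℤ → ℂ} (hx : ∀ n, x (-n) = (starRingEnd ℂ) (x n)) : ∀ L : RW,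
    okR L = true → rsum A B (foldR L) x = rsum A B L x
  | [], _ => rfl
  | e :: L, h => by
    obtain ⟨h1, h2⟩ := okR_cons.1 h
    unfold foldR
    split_ifs with hn h0
    · rw [rsum_ins A B x (e := (-e.1, (e.2.1, cjP e.2.2))) h1 _ (okR_fold L h2), rsum_fold A B hx L h2, rsum_cons]
      congr 1
      simp only
      rw [evF_cj, hx, Complex.conj_conj, ← Complex.conj_re]
      rw [map_mul, Complex.conj_conj]
    · rw [rsum_ins A B x (e := (0, reF e.2)) (reF_ne h1) _ (okR_fold L h2), rsum_fold A B hx L h2, rsum_cons]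
      congr 1
      have h3 := hx 0
      rw [neg_zero] at h3
      have h4 : (x 0).im = 0 := Complex.conj_eq_iff_im.1 h3.symm
      simp only
      rw [evF_re A B h1, Complex.conj_ofReal, Complex.re_ofReal_mul, h0, Complex.mul_re, h4, mul_zero, sub_zero,
        Complex.conj_re]
    · rw [rsum_ins A B x h1 _ (okR_fold L h2), rsum_fold A B hx L h2, rsum_cons]

/-! ### absolute values -/

/-- absolute value of a polynomial divided by `d` -/
def absL (d : ℕ) : PZ → N2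
  | [] => []
  | x :: p => if ab4 x.2 = 0 then absL d p else (x.1.1, x.1.2.1 + x.1.2.2, ab4 x.2 / d + 1) :: absL d p

theorem absL_le {A β : ℝ} (hA : 0 ≤ A) (hβ : 0 ≤ β) {d : ℕ} (hd : 0 < d) : ∀ p : PZ,
    abP A β p / d ≤ evN A β (absL d p)
  | [] => by simp [absL]
  | x :: p => by
    have ih := absL_le hA hβ hd p
    have hd' : (0 : ℝ) < d := by exact_mod_cast hd
    rw [abP_cons, add_div]
    unfold absL
    split_ifs with h
    · rw [h]
      simpa using ih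
    · rw [evN_cons]
      refine add_le_add ?_ ih
      have h1 : (ab4 x.2 : ℝ) / d ≤ ((ab4 x.2 / d + 1 : ℕ) : ℝ) := by
        rw [div_le_iff₀ hd']
        have h6 : ab4 x.2 < (ab4 x.2 / d + 1) * d := by
          calc ab4 x.2 < ab4 x.2 / d * d + d := Nat.lt_div_mul_add hd
            _ = (ab4 x.2 / d + 1) * d := by ring
        exact_mod_cast h6.le
      calc (ab4 x.2 : ℝ) / 1000000000 * (A ^ x.1.1 * β ^ (x.1.2.1 + x.1.2.2)) / d
          = (ab4 x.2 : ℝ) / d / 1000000000 * (A ^ x.1.1 * β ^ (x.1.2.1 + x.1.2.2)) := by ring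
        _ ≤ _ := by gcongr

/-- absolute value of a coefficient -/
def absF (f : FP) : N2 := absL f.1.natAbs f.2

theorem absF_le {A : ℝ} (hA : 0 ≤ A) (B : ℂ) {f : FP} (hf : f.1 ≠ 0) : ‖evF A B f‖ ≤ evN A ‖B‖ (absF f) := by
  have h1 := absL_le hA (norm_nonneg B) (Int.natAbs_pos.2 hf) f.2
  refine le_trans ?_ h1
  unfold evF
  rw [norm_div]
  have h2 : ‖((f.1 : ℤ) : ℂ)‖ = (f.1.natAbs : ℝ) := by
    rw [Complex.norm_intCast, Nat.cast_natAbs]
    push_cast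
    rfl
  rw [h2]
  gcongr
  exact abP_le hA B f.2

/-- look up -/
def lkR (n : ℤ) : RW → FP
  | [] => (1, [])
  | x :: L => if x.1 = n then x.2 else lkR n L

theorem lkR_ne (n : ℤ) : ∀ L : RW, okR L = true → (lkR n L).1 ≠ 0
  | [], _ => by simp [lkR]
  | x :: L, h => by
    obtain ⟨h1, h2⟩ := okR_cons.1 h
    unfold lkR
    split_ifs
    · exact h1
    · exact lkR_ne n L h2

/-- the modes -/
def keys (L : RW) : List ℤ := L.map Prod.fst

theorem lkR_notin (n : ℤ) : ∀ L : RW, n ∉ keys L → lkR n L = (1, [])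
  | [], _ => rfl
  | x :: L, h => by
    simp only [keys, List.map_cons, List.mem_cons, not_or] at h
    unfold lkR
    rw [if_neg (fun h' => h.1 h'.symm)]
    exact lkR_notin n L h.2

theorem rsum_keys (A : ℝ) (B : ℂ) (x : ℤ → ℂ) : ∀ L : RW, (keys L).Nodup →
    rsum A B L x = ((keys L).map fun n => ((starRingEnd ℂ) (evF A B (lkR n L)) * x n).re).sum
  | [], _ => rfl
  | e :: L, h => by
    have h' : e.1 ∉ keys L ∧ (keys L).Nodup := by
      simpa [keys] using h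
    rw [rsum_cons, rsum_keys A B x L h'.2]
    have e0 : keys (e :: L) = e.1 :: keys L := rfl
    rw [e0, List.map_cons, List.sum_cons]
    have e1 : lkR e.1 (e :: L) = e.2 := by simp [lkR]
    rw [e1]
    congr 2
    refine List.map_congr_left fun n hn => ?_
    have e2 : lkR n (e :: L) = lkR n L := by
      have : e.1 ≠ n := fun h3 => h'.1 (h3 ▸ hn)
      simp [lkR, this]
    rw [e2]

/-! ### the budget of one function -/

theorem sqrt_add_sum {ι : Type*} (T : Finset ι) (μ σ ξ : ι → ℝ) {N : ℝ} (hN : 0 ≤ N)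
    (hσ : ∀ n ∈ T, 0 ≤ σ n ∧ 0 ≤ ξ n ∧ μ n ≤ σ n ^ 2) :
    Real.sqrt (N + ∑ n ∈ T, μ n * ξ n ^ 2) ≤ Real.sqrt N + ∑ n ∈ T, σ n * ξ n := by
  classical
  have h0 : ∀ T' ⊆ T, 0 ≤ ∑ n ∈ T', σ n * ξ n ∧ ∑ n ∈ T', μ n * ξ n ^ 2 ≤ (∑ n ∈ T', σ n * ξ n) ^ 2 := by
    intro T'
    induction T' using Finset.induction_on with
    | empty => intro _; simp
    | insert a s ha ih =>
      intro hs
      obtain ⟨i1, i2⟩ := ih fun x hx => hs (Finset.mem_insert_of_mem hx)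
      obtain ⟨j1, j2, j3⟩ := hσ a (hs (Finset.mem_insert_self a s))
      rw [Finset.sum_insert ha, Finset.sum_insert ha]
      have j4 : 0 ≤ σ a * ξ a := mul_nonneg j1 j2
      refine ⟨by linarith, ?_⟩
      have j5 : μ a * ξ a ^ 2 ≤ σ a ^ 2 * ξ a ^ 2 := mul_le_mul_of_nonneg_right j3 (by positivity)
      nlinarith [mul_nonneg j4 i1]
  obtain ⟨i1, i2⟩ := h0 T (Finset.Subset.refl T)
  rw [Real.sqrt_le_iff]
  have hs := Real.sqrt_nonneg N
  have hs2 := Real.sq_sqrt hN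
  refine ⟨by linarith, ?_⟩
  nlinarith [mul_nonneg hs i1]

theorem young {a ξ c : ℝ} (hc : 0 < c) : a * ξ ≤ c * ξ ^ 2 + a ^ 2 / (4 * c) := by
  have h3 : c * ξ ^ 2 - a * ξ + a ^ 2 / (4 * c) = (2 * c * ξ - a) ^ 2 / (4 * c) := by
    field_simp
    ring
  have h4 : 0 ≤ (2 * c * ξ - a) ^ 2 / (4 * c) := by positivity
  linarith

/-- the budget of one function -/
theorem core {ι : Type*} [DecidableEq ι] (S T : Finset ι) (hTS : T ⊆ S) (ξ a μ σ d : ι → ℝ) {N D0 θ e : ℝ}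
    (hξ : ∀ n ∈ S, 0 ≤ ξ n) (hμ : ∀ n ∈ S, 0 < μ n) (hσ : ∀ n ∈ T, 0 ≤ σ n ∧ μ n ≤ σ n ^ 2)
    (hd : ∀ n ∈ T, 0 < d n) (hN : ∑ n ∈ S, μ n * ξ n ^ 2 ≤ N) (hθ : 0 < θ) (hθ' : θ < D0) (he : 0 ≤ e) :
    ∑ n ∈ S, a n * ξ n + e * Real.sqrt N ≤ D0 * (N - ∑ n ∈ T, μ n * ξ n ^ 2) + ∑ n ∈ T, d n * (μ n * ξ n ^ 2)
      + (∑ n ∈ S \ T, a n ^ 2 / (4 * (μ n * (D0 - θ))) + ∑ n ∈ T, (a n + σ n * e) ^ 2 / (4 * (μ n * d n))
        + e ^ 2 / (4 * θ)) := by
  have s1 : ∑ n ∈ S, a n * ξ n = ∑ n ∈ S \ T, a n * ξ n + ∑ n ∈ T, a n * ξ n :=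
    (Finset.sum_sdiff hTS).symm
  have s2 : ∑ n ∈ S, μ n * ξ n ^ 2 = ∑ n ∈ S \ T, μ n * ξ n ^ 2 + ∑ n ∈ T, μ n * ξ n ^ 2 :=
    (Finset.sum_sdiff hTS).symm
  have h1 : ∑ n ∈ S \ T, a n * ξ n ≤ (D0 - θ) * ∑ n ∈ S \ T, μ n * ξ n ^ 2
      + ∑ n ∈ S \ T, a n ^ 2 / (4 * (μ n * (D0 - θ))) := by
    rw [Finset.mul_sum, ← Finset.sum_add_distrib]
    refine Finset.sum_le_sum fun n hn => ?_
    have hn' := (Finset.mem_sdiff.1 hn).1
    have := young (a := a n) (ξ := ξ n) (mul_pos (hμ n hn') (sub_pos.2 hθ'))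
    calc a n * ξ n ≤ μ n * (D0 - θ) * ξ n ^ 2 + a n ^ 2 / (4 * (μ n * (D0 - θ))) := this
      _ = _ := by ring
  have h2 : ∑ n ∈ T, a n * ξ n + e * ∑ n ∈ T, σ n * ξ n ≤ ∑ n ∈ T, d n * (μ n * ξ n ^ 2)
      + ∑ n ∈ T, (a n + σ n * e) ^ 2 / (4 * (μ n * d n)) := by
    rw [Finset.mul_sum, ← Finset.sum_add_distrib, ← Finset.sum_add_distrib]
    refine Finset.sum_le_sum fun n hn => ?_
    have := young (a := a n + σ n * e) (ξ := ξ n) (mul_pos (hμ n (hTS hn)) (hd n hn))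
    calc a n * ξ n + e * (σ n * ξ n) = (a n + σ n * e) * ξ n := by ring
      _ ≤ μ n * d n * ξ n ^ 2 + (a n + σ n * e) ^ 2 / (4 * (μ n * d n)) := this
      _ = _ := by ring
  have h0 : 0 ≤ ∑ n ∈ S \ T, μ n * ξ n ^ 2 := Finset.sum_nonneg fun n hn =>
    mul_nonneg (hμ n (Finset.mem_sdiff.1 hn).1).le (sq_nonneg _)
  set N' := N - ∑ n ∈ T, μ n * ξ n ^ 2 with hN'
  have hN0 : 0 ≤ N' := by linarith
  have h3 : Real.sqrt N ≤ Real.sqrt N' + ∑ n ∈ T, σ n * ξ n := by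
    have := sqrt_add_sum T μ σ ξ hN0 fun n hn => ⟨(hσ n hn).1, hξ n (hTS hn), (hσ n hn).2⟩
    rwa [hN', sub_add_cancel] at this
  have h4 : e * Real.sqrt N' ≤ θ * N' + e ^ 2 / (4 * θ) := by
    have := young (a := e) (ξ := Real.sqrt N') hθ
    rwa [Real.sq_sqrt hN0] at this
  have h5 : (D0 - θ) * ∑ n ∈ S \ T, μ n * ξ n ^ 2 ≤ (D0 - θ) * N' :=
    mul_le_mul_of_nonneg_left (by linarith) (by linarith)
  have h6 := mul_le_mul_of_nonneg_left h3 he
  rw [mul_add] at h6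
  rw [s1]
  linarith

/-- the budget of one function, a weight `d n` for every index (`= D0` outside `X`); weak indices `T` (`d n` arbitrary
positive) with errors `ε n` of their own, elsewhere `D0 ≤ d n` -/
theorem core_in {ι : Type*} [DecidableEq ι] (S X T : Finset ι) (hTS : T ⊆ S) (ξ a μ ε d : ι → ℝ) {N D0 θ e : ℝ}
    (hμ : ∀ n ∈ S ∪ X, 0 < μ n)
    (hd : ∀ n ∈ T, 0 < d n) (hdX : ∀ n, n ∉ X → d n = D0) (hds : ∀ n ∈ (S ∪ X) \ T, D0 ≤ d n)
    (hN : ∑ n ∈ S ∪ X, μ n * ξ n ^ 2 ≤ N) (hθ : 0 < θ) (hθ' : θ < D0) :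
    ∑ n ∈ S, a n * ξ n + (∑ n ∈ T, ε n * ξ n + e * Real.sqrt (N - ∑ n ∈ T, μ n * ξ n ^ 2))
      ≤ D0 * N + ∑ n ∈ X, (d n - D0) * (μ n * ξ n ^ 2)
      + (∑ n ∈ S \ T, a n ^ 2 / (4 * (μ n * (d n - θ))) + ∑ n ∈ T, (a n + ε n) ^ 2 / (4 * (μ n * d n))
        + e ^ 2 / (4 * θ)) := by
  set U := S ∪ X with hU
  have hSU : S ⊆ U := Finset.subset_union_left
  have hXU : X ⊆ U := Finset.subset_union_right
  have hTU : T ⊆ U := hTS.trans hSU
  have s1 : ∑ n ∈ S, a n * ξ n = ∑ n ∈ S \ T, a n * ξ n + ∑ n ∈ T, a n * ξ n :=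
    (Finset.sum_sdiff hTS).symm
  have s2 : ∑ n ∈ U, μ n * ξ n ^ 2 = ∑ n ∈ U \ T, μ n * ξ n ^ 2 + ∑ n ∈ T, μ n * ξ n ^ 2 :=
    (Finset.sum_sdiff hTU).symm
  have s3 : ∑ n ∈ U, d n * (μ n * ξ n ^ 2) = D0 * ∑ n ∈ U, μ n * ξ n ^ 2
      + ∑ n ∈ X, (d n - D0) * (μ n * ξ n ^ 2) := by
    have h0 : ∑ n ∈ X, (d n - D0) * (μ n * ξ n ^ 2) = ∑ n ∈ U, (d n - D0) * (μ n * ξ n ^ 2) := by
      refine Finset.sum_subset hXU fun n _ hn => ?_
      rw [hdX n hn, sub_self, zero_mul]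
    rw [h0, Finset.mul_sum, ← Finset.sum_add_distrib]
    exact Finset.sum_congr rfl fun n _ => by ring
  have s4 : ∑ n ∈ U, d n * (μ n * ξ n ^ 2) = ∑ n ∈ U \ T, d n * (μ n * ξ n ^ 2) + ∑ n ∈ T, d n * (μ n * ξ n ^ 2) :=
    (Finset.sum_sdiff hTU).symm
  have h1 : ∑ n ∈ S \ T, a n * ξ n ≤ ∑ n ∈ S \ T, (d n - θ) * (μ n * ξ n ^ 2)
      + ∑ n ∈ S \ T, a n ^ 2 / (4 * (μ n * (d n - θ))) := by
    rw [← Finset.sum_add_distrib]
    refine Finset.sum_le_sum fun n hn => ?_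
    have hn' := (Finset.mem_sdiff.1 hn).1
    have hnU : n ∈ U \ T := Finset.mem_sdiff.2 ⟨hSU hn', (Finset.mem_sdiff.1 hn).2⟩
    have hdn : 0 < d n - θ := by have := hds n hnU; linarith
    have := young (a := a n) (ξ := ξ n) (mul_pos (hμ n (hSU hn')) hdn)
    calc a n * ξ n ≤ μ n * (d n - θ) * ξ n ^ 2 + a n ^ 2 / (4 * (μ n * (d n - θ))) := this
      _ = _ := by ring
  have h1' : ∑ n ∈ S \ T, (d n - θ) * (μ n * ξ n ^ 2) ≤ ∑ n ∈ U \ T, (d n - θ) * (μ n * ξ n ^ 2) := by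
    refine Finset.sum_le_sum_of_subset_of_nonneg (Finset.sdiff_subset_sdiff hSU (Finset.Subset.refl T)) ?_
    intro n hn _
    have h5 := hds n hn
    exact mul_nonneg (by linarith) (mul_nonneg (hμ n (Finset.mem_sdiff.1 hn).1).le (sq_nonneg _))
  have h2 : ∑ n ∈ T, a n * ξ n + ∑ n ∈ T, ε n * ξ n ≤ ∑ n ∈ T, d n * (μ n * ξ n ^ 2)
      + ∑ n ∈ T, (a n + ε n) ^ 2 / (4 * (μ n * d n)) := by
    rw [← Finset.sum_add_distrib, ← Finset.sum_add_distrib]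
    refine Finset.sum_le_sum fun n hn => ?_
    have := young (a := a n + ε n) (ξ := ξ n) (mul_pos (hμ n (hTU hn)) (hd n hn))
    calc a n * ξ n + ε n * ξ n = (a n + ε n) * ξ n := by ring
      _ ≤ μ n * d n * ξ n ^ 2 + (a n + ε n) ^ 2 / (4 * (μ n * d n)) := this
      _ = _ := by ring
  have h0 : 0 ≤ ∑ n ∈ U \ T, μ n * ξ n ^ 2 := Finset.sum_nonneg fun n hn =>
    mul_nonneg (hμ n (Finset.mem_sdiff.1 hn).1).le (sq_nonneg _)
  set N' := N - ∑ n ∈ T, μ n * ξ n ^ 2 with hN'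
  have hN0 : 0 ≤ N' := by linarith
  have h4 : e * Real.sqrt N' ≤ θ * N' + e ^ 2 / (4 * θ) := by
    have := young (a := e) (ξ := Real.sqrt N') hθ
    rwa [Real.sq_sqrt hN0] at this
  have h7 : ∑ n ∈ U \ T, (d n - θ) * (μ n * ξ n ^ 2) = ∑ n ∈ U \ T, d n * (μ n * ξ n ^ 2)
      - θ * ∑ n ∈ U \ T, μ n * ξ n ^ 2 := by
    rw [Finset.mul_sum, ← Finset.sum_sub_distrib]
    exact Finset.sum_congr rfl fun n _ => by ring
  have h8 : θ * N' + θ * (∑ n ∈ U, μ n * ξ n ^ 2 - N) = θ * ∑ n ∈ U \ T, μ n * ξ n ^ 2 := by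
    rw [hN', s2]; ring
  have h9 : 0 ≤ (D0 - θ) * (N - ∑ n ∈ U, μ n * ξ n ^ 2) := mul_nonneg (by linarith) (by linarith)
  rw [s1]
  nlinarith [h1, h1', h2, h4, h7, h8, h9, s3, s4]

/-- splitting of the norm: weak indices `T`, `T1 ⊆ T` with errors of their own -/
theorem split_norm {ι : Type*} [DecidableEq ι] (T T1 : Finset ι) (h1 : T1 ⊆ T) (μ σ ξ h : ι → ℝ) {N e : ℝ}
    (hN : ∑ n ∈ T, μ n * ξ n ^ 2 ≤ N) (he : 0 ≤ e) (hσ : ∀ n ∈ T \ T1, 0 ≤ σ n ∧ 0 ≤ ξ n ∧ μ n ≤ σ n ^ 2) :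
    e * Real.sqrt (N - ∑ n ∈ T1, μ n * ξ n ^ 2) + ∑ n ∈ T1, h n * ξ n ≤
      ∑ n ∈ T, (if n ∈ T1 then h n else σ n * e) * ξ n + e * Real.sqrt (N - ∑ n ∈ T, μ n * ξ n ^ 2) := by
  have s := Finset.sum_sdiff (f := fun n => μ n * ξ n ^ 2) h1
  have s' := Finset.sum_sdiff (f := fun n => (if n ∈ T1 then h n else σ n * e) * ξ n) h1
  have hN' : 0 ≤ N - ∑ n ∈ T, μ n * ξ n ^ 2 := by linarith
  have k := sqrt_add_sum (T \ T1) μ σ ξ hN' hσ
  have e1 : N - ∑ n ∈ T, μ n * ξ n ^ 2 + ∑ n ∈ T \ T1, μ n * ξ n ^ 2 = N - ∑ n ∈ T1, μ n * ξ n ^ 2 := by linarith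
  rw [e1] at k
  have k2 := mul_le_mul_of_nonneg_left k he
  rw [mul_add, Finset.mul_sum] at k2
  have e2 : ∑ n ∈ T \ T1, (if n ∈ T1 then h n else σ n * e) * ξ n = ∑ n ∈ T \ T1, e * (σ n * ξ n) := by
    refine Finset.sum_congr rfl fun n hn => ?_
    rw [if_neg (Finset.mem_sdiff.1 hn).2]
    ring
  have e3 : ∑ n ∈ T1, (if n ∈ T1 then h n else σ n * e) * ξ n = ∑ n ∈ T1, h n * ξ n := by
    refine Finset.sum_congr rfl fun n hn => ?_
    rw [if_pos hn]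
  rw [← s', e2, e3]
  linarith

end Pool.Agent.Helper27.SH
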