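import Pool.Agent.Helper27.SH.Z1V
import Pool.Agent.Helper40.C3.Fin

/-!
# SHARP (MP_b21509_co): ZONE I, open is the section of the zone only
-/

set_option autoImplicit false

namespace Pool.Agent.Helper27.SH

open Helper56.SH (StZ1)
open Pool.Agent.Helper61.RC.QC (StZR c3c_of)

/-- **ZONE I** -/
theorem stZ1_ZR
    (HL : Helper50.SH.P4F (21 / 25) (4 / 5) 1 (3 / 2) (-(18 / 1000)) (36 / 1000) (33903 / 1048576) (1 / 2))
    (hZR : StZR) : StZ1 (1 / 12) :=
  stZ1_C3 HL (c3c_of Pool.Agent.Helper40.C3.stC3) hZR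

end Pool.Agent.Helper27.SH
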