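import Pool.Agent.Helper27.SH.Z1
import Pool.Agent.Helper61.RC.QZR
import Pool.Agent.Helper72.SH.Heads

/-!
# SHARP (MP_b21509_co): ZONE I, from the local lemma (`P4F`) only
-/

set_option autoImplicit false

namespace Pool.Agent.Helper27.SH

open Helper56.SH (StZ1)

/-- **ZONE I** -/
theorem stZ1
    (HL : Helper50.SH.P4F (21 / 25) (4 / 5) 1 (3 / 2) (-(18 / 1000)) (36 / 1000) (33903 / 1048576) (1 / 2)) :
    StZ1 (1 / 12) :=
  stZ1_ZR HL (Pool.Agent.Helper61.RC.QC.stZR_of Pool.Agent.Helper72.SH.heads)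

end Pool.Agent.Helper27.SH
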