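import Pool.Agent.Helper27.SH.Asm
import Pool.Agent.Helper27.SH.Z1L
import Pool.Agent.Helper35.SH.VG
import Pool.Agent.Helper26.SH.TailT
import Pool.Agent.Helper61.RC.QC8

/-!
# SHARP (MP_b21509_co): ZONE I

`stZ1_Q`: zone I from (Q); `stZ1_C3`: zone I from (C3) and the section of the zone.
-/

set_option autoImplicit false
set_option maxRecDepth 100000

open MeasureTheory Set Filter Metric
open scoped BigOperators

namespace Pool.Agent.Helper27.SH

open Helper49.LT hiding sg s3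
open Helper49.RC Helper49.Sharp
open Helper56.RC (fc)
open Helper56.SH (StZ1)
open Helper95.SH (Dat)
open Pool.Agent.Helper33.SH
open Pool.Agent.Helper33.GL (TailL RB)
open Pool.Agent.Helper43.SH
open Pool.Agent.Helper40.NR (gNS addF)
open Pool.Agent.Helper7.GK (gLOC)
open Pool.Agent.Helper26.SH (TT gTL tsumT tailL_GEK)
open Pool.Agent.Helper35.Cas (vEP vok_EP)
open Pool.Agent.Helper61.RC.QC (M12 StC3c c3Q StZR hqZ)

theorem eqW : costA (M12 17 100 220) (gI gTL) = WL1 := by decide +kernel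

theorem eqN : absF (addF (reF (vEP TT).f) (negV V1)) ++ (vEP TT).e = NL1 := by decide +kernel

theorem okI : (gLOC.toE.ok && gNS.toE.ok && (gLOC.toE.add gNS.toE).ok && gTL.ok
      && ((gLOC.toE.add gNS.toE).add gTL).ok) = true := by decide +kernel

theorem okC : ((M12 17 100 220).z.ok false (gI gTL).z && (M12 17 100 220).p.ok true (foldR (gI gTL).p)
    && (M12 17 100 220).r.ok true (foldR (gI gTL).r) && (gI gTL).ok && decide ((vEP TT).f.1 ≠ 0)
    && evenV V1) = true := by decide +kernel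

theorem chkI : chkAll 1 12 384 14 (M12 17 100 220) (gI gTL) (vEP TT) V1 = true := by
  unfold chkAll
  rw [eqW, eqN, chk1, okC]
  rfl

/-- (Q) of zone I -/
def StQ : Prop := ∀ (A : ℝ) (B : ℂ), 0 ≤ A → A + 8 / 5 * ‖B‖ ≤ 1 / 12 → ∀ b z : ℝ → ℂ, Dat b z → fc z (-3) = (A : ℂ) →
  fc z (-5) = B → ∀ N, 48 ≤ N → MetS (M12 17 100 220) (tR A B N z) (xR A B N b) (yR A B N b) (NZ A B N z) (NX A B N b)
    (NY A B N b) ≤ QI A B N b z

theorem hZ12' {A : ℝ} {B : ℂ} (hA : 0 ≤ A) (hz : A + 8 / 5 * ‖B‖ ≤ 1 / 12) : |A| + 2 * ‖B‖ ≤ 1 / 4 := by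
  have hB := norm_nonneg B
  rw [abs_of_nonneg hA]
  linarith

/-- **ZONE I from (Q)** -/
theorem stZ1_Q
    (HL : Helper50.SH.P4F (21 / 25) (4 / 5) 1 (3 / 2) (-(18 / 1000)) (36 / 1000) (33903 / 1048576) (1 / 2))
    (HQ : StQ) : StZ1 (1 / 12) := by
  refine stZ1_parts HL (by norm_num) okI chkI (fun A B hA hz b z d h3 h5 N hN => ?_) (fun A B hA hz => ?_) HQ
  · have hZ := hZ12' hA hz
    have h := tailL_GEK (zcI A B) (le_rfl : (100 : ℝ) ≤ (zcI A B).rho) (lam_le_m hZ) hA hz (rb_R hZ d N)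
    rw [fc_beR_re hZ d.hb N, fc_beR_im hZ d.hb N, fc_rhR hZ N] at h
    exact h
  · have hZ := hZ12' hA hz
    exact vok_EP hA (by linarith) TT (tsumT (zcI A B) (le_rfl : (100 : ℝ) ≤ (zcI A B).rho) (lam_le_m hZ) hA hz)

/-- **ZONE I from (C3) and the section of the zone** -/
theorem stZ1_C3
    (HL : Helper50.SH.P4F (21 / 25) (4 / 5) 1 (3 / 2) (-(18 / 1000)) (36 / 1000) (33903 / 1048576) (1 / 2))
    (h3 : StC3c (c3Q : ℝ)) (hZR : StZR) : StZ1 (1 / 12) :=
  stZ1_Q HL fun _ _ hA hz _ _ d f3 f5 _ hN => hqZ h3 hZR hA hz d f3 f5 (by omega) 17 100 220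

end Pool.Agent.Helper27.SH
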